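import Pool.Agent.H39Z.SSS.Spec

/-! Three pieces of the Schur-Siegel-Smyth proof: N, MASS, EXT. -/

set_option autoImplicit false

namespace Pool.Agent.H691Z.Sss

open MeasureTheory Polynomial Set Pool.Agent.H39Z.SSS

/-- a point near the segment `[-1, 1]` is a Joukowski image with controlled modulus -/
theorem jouk (v : ℂ) (ε : ℝ) (hε : ‖v - 1‖ + ‖v + 1‖ ≤ 2 + ε) :
    ∃ u : ℂ, u ≠ 0 ∧ ‖u‖ ≤ 1 ∧ u ^ 2 + 1 = 2 * v * u ∧ ‖u‖ + 1 / ‖u‖ ≤ 2 + ε := by
  obtain ⟨s, hs⟩ := IsAlgClosed.exists_pow_nat_eq (v ^ 2 - 1) (n := 2) (by norm_num)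
  have hprod : (v + s) * (v - s) = 1 := by linear_combination (-1 : ℂ) * hs
  have key : ∀ u : ℂ, u ≠ 0 → u ^ 2 + 1 = 2 * v * u → ‖u‖ + 1 / ‖u‖ ≤ 2 + ε := by
    intro u hu h
    have hn : 0 < ‖u‖ := norm_pos_iff.mpr hu
    have h1 : (u - 1) ^ 2 = 2 * (v - 1) * u := by linear_combination h
    have h2 : (u + 1) ^ 2 = 2 * (v + 1) * u := by linear_combination h
    have e1 : ‖u - 1‖ ^ 2 = 2 * ‖v - 1‖ * ‖u‖ := by
      rw [← norm_pow, h1, norm_mul, norm_mul]; simp
    have e2 : ‖u + 1‖ ^ 2 = 2 * ‖v + 1‖ * ‖u‖ := by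
      rw [← norm_pow, h2, norm_mul, norm_mul]; simp
    have par : ‖u - 1‖ ^ 2 + ‖u + 1‖ ^ 2 = 2 * ‖u‖ ^ 2 + 2 := by
      simp only [Complex.sq_norm, Complex.normSq_apply, Complex.sub_re, Complex.sub_im,
        Complex.add_re, Complex.add_im, Complex.one_re, Complex.one_im]
      ring
    have : (‖u‖ + 1 / ‖u‖) * ‖u‖ ≤ (2 + ε) * ‖u‖ := by
      have : (‖u‖ + 1 / ‖u‖) * ‖u‖ = ‖u‖ ^ 2 + 1 := by field_simp
      rw [this]
      nlinarith
    exact le_of_mul_le_mul_right this hn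
  have ha : v + s ≠ 0 := left_ne_zero_of_mul_eq_one hprod
  have hb : v - s ≠ 0 := right_ne_zero_of_mul_eq_one hprod
  have qa : (v + s) ^ 2 + 1 = 2 * v * (v + s) := by linear_combination hs
  have qb : (v - s) ^ 2 + 1 = 2 * v * (v - s) := by linear_combination hs
  have hn : ‖v + s‖ * ‖v - s‖ = 1 := by rw [← norm_mul, hprod, norm_one]
  by_cases h : ‖v + s‖ ≤ 1
  · exact ⟨v + s, ha, h, qa, key _ ha qa⟩
  · refine ⟨v - s, hb, ?_, qb, key _ hb qb⟩
    push Not at h
    nlinarith [norm_nonneg (v - s)]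

/-- the bound in the unit disc -/
theorem disc (L : ℝ) (ι : Type) (t : Finset ι) (n : ι → ℕ) (z : ι → ℂ) (M : ℕ) (a c : ℝ)
    (hL : 0 ≤ L)
    (h : ∀ x ∈ Icc 0 (4 * L),
      Real.exp a * ∏ i ∈ t, ‖(x : ℂ) - z i‖ ^ n i ≤ Real.exp (M * (x - c)))
    (u : ℂ) (hu : ‖u‖ ≤ 1) :
    Real.exp a * (∏ i ∈ t, ‖(L : ℂ) * (u ^ 2 + 1) + (2 * L - z i) * u‖ ^ n i) *
      Real.exp (-(2 * M * L * (1 + u.re))) ≤ Real.exp (-(M * c)) := by
  set F : ℂ → ℂ := fun w => (Real.exp a : ℂ) *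
    (∏ i ∈ t, ((L : ℂ) * (w ^ 2 + 1) + (2 * L - z i) * w) ^ n i) *
      Complex.exp (-(2 * M * L * (1 + w))) with hF
  have hnorm : ∀ w, ‖F w‖ = Real.exp a *
      (∏ i ∈ t, ‖(L : ℂ) * (w ^ 2 + 1) + (2 * L - z i) * w‖ ^ n i) *
      Real.exp (-(2 * M * L * (1 + w.re))) := by
    intro w
    simp only [hF, norm_mul, norm_prod, norm_pow, Complex.norm_exp, Complex.norm_real,
      Real.norm_eq_abs, Real.abs_exp]
    congr 2
    simp
  have hd : Differentiable ℂ F := by
    simp only [hF]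
    fun_prop
  rw [← hnorm]
  refine Complex.norm_le_of_forall_mem_frontier_norm_le (U := Metric.ball (0 : ℂ) 1)
    Metric.isBounded_ball hd.diffContOnCl ?_ ?_
  · intro w hw
    rw [frontier_ball _ one_ne_zero, mem_sphere_zero_iff_norm] at hw
    rw [hnorm]
    have hre : |w.re| ≤ 1 := hw ▸ Complex.abs_re_le_norm w
    have hre' := abs_le.mp hre
    have hx : (2 * L * (1 + w.re)) ∈ Icc 0 (4 * L) := ⟨by nlinarith, by nlinarith⟩
    have hb := h _ hx
    have hsq : w.re ^ 2 + w.im ^ 2 = 1 := by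
      have := Complex.sq_norm w
      rw [hw, Complex.normSq_apply] at this
      nlinarith
    have hw2 : w ^ 2 + 1 = 2 * (w.re : ℂ) * w := by
      apply Complex.ext
      · simp [sq]; nlinarith
      · simp [sq]; ring
    have hfac : ∀ i, ‖(L : ℂ) * (w ^ 2 + 1) + (2 * L - z i) * w‖ =
        ‖((2 * L * (1 + w.re) : ℝ) : ℂ) - z i‖ := by
      intro i
      have : (L : ℂ) * (w ^ 2 + 1) + (2 * L - z i) * w =
          (((2 * L * (1 + w.re) : ℝ) : ℂ) - z i) * w := by
        rw [hw2]; push_cast; ring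
      rw [this, norm_mul, hw, mul_one]
    simp only [hfac]
    calc _ ≤ Real.exp (M * (2 * L * (1 + w.re) - c)) * Real.exp (-(2 * M * L * (1 + w.re))) := by
          gcongr
      _ = _ := by rw [← Real.exp_add]; congr 1; ring
  · rw [closure_ball _ one_ne_zero]
    simpa using hu

/-- the bound near the segment -/
theorem near (L : ℝ) (ι : Type) (t : Finset ι) (n : ι → ℕ) (z : ι → ℂ) (M : ℕ) (a c : ℝ)
    (hL : 12 ≤ L)
    (h : ∀ x ∈ Icc 0 (4 * L),
      Real.exp a * ∏ i ∈ t, ‖(x : ℂ) - z i‖ ^ n i ≤ Real.exp (M * (x - c)))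
    (x : ℝ) (hx : x ∈ Icc 0 (4 * L)) (r : ℝ) (hr : 0 < r) (hr1 : r ≤ 1) (ζ : ℂ)
    (hζ : ‖ζ - x‖ ≤ 2 * r) :
    Real.exp a * (∏ i ∈ t, ‖ζ - z i‖ ^ n i) * Real.exp (-(M * ζ.re)) ≤
      Real.exp (-(M * c) + (∑ i ∈ t, (n i : ℝ) + M * L) * √r) := by
  have hL0 : 0 < L := by linarith
  have hLc : (L : ℂ) ≠ 0 := by exact_mod_cast hL0.ne'
  set v : ℂ := (ζ - 2 * L) / (2 * L) with hv
  have hv1 : ‖v - 1‖ + ‖v + 1‖ ≤ 2 + 2 * r / L := by
    have e1 : v - 1 = ((ζ - x) + ((x - 4 * L : ℝ) : ℂ)) / ((2 * L : ℝ) : ℂ) := by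
      rw [hv]; push_cast; field_simp; ring
    have e2 : v + 1 = ((ζ - x) + ((x : ℝ) : ℂ)) / ((2 * L : ℝ) : ℂ) := by
      rw [hv]; push_cast; field_simp; ring
    have n1 : ‖v - 1‖ ≤ (2 * r + (4 * L - x)) / (2 * L) := by
      rw [e1, norm_div, Complex.norm_real, Real.norm_of_nonneg (by linarith)]
      gcongr
      refine (norm_add_le _ _).trans (add_le_add hζ ?_)
      rw [Complex.norm_real, Real.norm_eq_abs, abs_sub_comm, abs_of_nonneg (by linarith [hx.2])]
    have n2 : ‖v + 1‖ ≤ (2 * r + x) / (2 * L) := by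
      rw [e2, norm_div, Complex.norm_real, Real.norm_of_nonneg (by linarith)]
      gcongr
      refine (norm_add_le _ _).trans (add_le_add hζ ?_)
      rw [Complex.norm_real, Real.norm_eq_abs, abs_of_nonneg hx.1]
    have : (2 * r + (4 * L - x)) / (2 * L) + (2 * r + x) / (2 * L) = 2 + 2 * r / L := by
      field_simp; ring
    linarith
  obtain ⟨u, hu0, hu1, hq, hs⟩ := jouk v _ hv1
  set ρ := ‖u‖ with hρ
  have hρ0 : 0 < ρ := norm_pos_iff.mpr hu0
  have hinv : 1 ≤ 1 / ρ := by rw [le_div_iff₀ hρ0]; linarith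
  have hd : 1 / ρ - ρ ≤ √r := by
    apply Real.le_sqrt_of_sq_le
    have e : (1 / ρ - ρ) ^ 2 = (ρ + 1 / ρ) ^ 2 - 4 := by field_simp; ring
    have hy : r / L ≤ r / 12 := by gcongr
    have hy0 : 0 ≤ r / L := by positivity
    have h2 : 2 * r / L = 2 * (r / L) := by ring
    rw [h2] at hs
    have : (ρ + 1 / ρ) ^ 2 ≤ (2 + 2 * (r / L)) ^ 2 := by gcongr
    rw [e]
    nlinarith
  have hD := disc L ι t n z M a c hL0.le h u hu1
  have hζ' : ζ * u = L * (u ^ 2 + 1) + 2 * L * u := by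
    rw [hq, hv]; field_simp; ring
  have hfac : ∀ i, ‖(L : ℂ) * (u ^ 2 + 1) + (2 * L - z i) * u‖ = ‖ζ - z i‖ * ρ := by
    intro i
    have : (L : ℂ) * (u ^ 2 + 1) + (2 * L - z i) * u = (ζ - z i) * u := by
      linear_combination -hζ'
    rw [this, norm_mul]
  simp only [hfac, mul_pow, Finset.prod_mul_distrib, Finset.prod_pow_eq_pow_sum] at hD
  set N : ℕ := ∑ i ∈ t, n i with hN
  have hNr : ∑ i ∈ t, (n i : ℝ) = N := by rw [hN]; push_cast; rfl
  rw [hNr]
  -- real part of ζ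
  have hre : ζ.re = 2 * L + L * u.re + L * (u.re / ρ ^ 2) := by
    have : ζ = 2 * L + L * u + L * u⁻¹ := by
      field_simp
      linear_combination hζ'
    rw [this]
    simp [Complex.inv_re, hρ, Complex.sq_norm]
  have hure : |u.re| ≤ ρ := Complex.abs_re_le_norm u
  have hk : 0 ≤ 1 / ρ ^ 2 - 1 := by
    have : 1 ≤ 1 / ρ ^ 2 := by
      rw [le_div_iff₀ (by positivity)]; nlinarith
    linarith
  have hre2 : -(u.re * (1 / ρ ^ 2 - 1)) ≤ 1 / ρ - ρ := by
    have : ρ * (1 / ρ ^ 2 - 1) = 1 / ρ - ρ := by field_simp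
    rw [← this]
    nlinarith [(abs_le.mp hure).1]
  have hlog : 1 ≤ ρ * Real.exp (√r) := by
    have h1 : 1 / ρ ≤ Real.exp (√r) := by
      have := Real.add_one_le_exp (√r)
      linarith
    rw [div_le_iff₀ hρ0] at h1
    linarith
  have hpow : 1 ≤ ρ ^ N * Real.exp (N * √r) := by
    rw [Real.exp_nat_mul, ← mul_pow]
    exact one_le_pow₀ hlog
  have hM : (0 : ℝ) ≤ M := Nat.cast_nonneg M
  have hex : Real.exp (-(M * ζ.re)) ≤
      Real.exp (-(2 * M * L * (1 + u.re))) * Real.exp (M * L * √r) := by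
    rw [← Real.exp_add, Real.exp_le_exp, hre]
    have : M * L * (-(u.re * (1 / ρ ^ 2 - 1))) ≤ M * L * √r := by
      have := hre2.trans hd
      gcongr
    have e : u.re / ρ ^ 2 = u.re * (1 / ρ ^ 2) := by ring
    rw [e]
    nlinarith
  set A := Real.exp a * ∏ i ∈ t, ‖ζ - z i‖ ^ n i with hA
  have hA0 : 0 ≤ A := by positivity
  calc A * Real.exp (-(M * ζ.re))
      ≤ A * (Real.exp (-(2 * M * L * (1 + u.re))) * Real.exp (M * L * √r)) * 1 := by
        rw [mul_one]; gcongr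
    _ ≤ A * (Real.exp (-(2 * M * L * (1 + u.re))) * Real.exp (M * L * √r)) *
          (ρ ^ N * Real.exp (N * √r)) := by gcongr
    _ = (Real.exp a * ((∏ i ∈ t, ‖ζ - z i‖ ^ n i) * ρ ^ N) *
          Real.exp (-(2 * M * L * (1 + u.re)))) *
          (Real.exp (M * L * √r) * Real.exp (N * √r)) := by rw [hA]; ring
    _ ≤ Real.exp (-(M * c)) * (Real.exp (M * L * √r) * Real.exp (N * √r)) := by gcongr
    _ = _ := by rw [← Real.exp_add, ← Real.exp_add]; congr 1; ring

theorem lemN : S_N := by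
  classical
  intro L ι t n z M a c hL h x hx hz r hr hr1
  set B := Real.exp (-(M * c) + (∑ i ∈ t, (n i : ℝ) + M * L) * √r) with hB
  set p : ι → Prop := fun i => ‖(x : ℂ) - z i‖ < r with hp
  set g : ℂ → ℂ := fun w => (Real.exp a : ℂ) *
    (∏ i ∈ t, (if p i then (r : ℂ) else w - z i) ^ n i) * Complex.exp (-(M * w)) with hg
  have hnorm : ∀ w, ‖g w‖ = Real.exp a *
      (∏ i ∈ t, ‖if p i then (r : ℂ) else w - z i‖ ^ n i) * Real.exp (-(M * w.re)) := by
    intro w
    simp only [hg, norm_mul, norm_prod, norm_pow, Complex.norm_exp, Complex.norm_real,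
      Real.norm_eq_abs, Real.abs_exp]
    congr 2
    simp
  have hd : Differentiable ℂ g := by
    simp only [hg]
    refine Differentiable.mul (Differentiable.mul (differentiable_const _) ?_) (by fun_prop)
    refine Differentiable.fun_finsetProd (fun i _ => ?_)
    by_cases hi : p i
    · simp only [hi, if_true]; fun_prop
    · simp only [hi, if_false]; fun_prop
  have hmax : ‖g x‖ ≤ B := by
    refine Complex.norm_le_of_forall_mem_frontier_norm_le (U := Metric.ball (x : ℂ) (2 * r))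
      Metric.isBounded_ball hd.diffContOnCl ?_ ?_
    · intro w hw
      rw [frontier_ball _ (by positivity), mem_sphere_iff_norm] at hw
      refine le_trans ?_ (near L ι t n z M a c hL h x hx r hr hr1 w hw.le)
      rw [hnorm]
      gcongr with i hi
      by_cases hpi : p i
      · simp only [hpi, if_true, Complex.norm_real, Real.norm_of_nonneg hr.le]
        have h1 : ‖w - x‖ ≤ ‖w - z i‖ + ‖(x : ℂ) - z i‖ := by
          have : w - x = (w - z i) - ((x : ℂ) - z i) := by ring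
          rw [this]; exact norm_sub_le _ _
        have h2 : ‖(x : ℂ) - z i‖ < r := hpi
        linarith
      · simp only [hpi, if_false, le_refl]
    · exact subset_closure (Metric.mem_ball_self (by positivity))
  rw [hnorm] at hmax
  have hpos : ∀ i ∈ t, 0 < ‖(x : ℂ) - z i‖ := fun i hi => norm_pos_iff.mpr (sub_ne_zero.mpr (hz i hi))
  have hterm : ∀ i ∈ t, ‖if p i then (r : ℂ) else (x : ℂ) - z i‖ ^ n i =
      Real.exp (n i * max 0 (Real.log (r / ‖(x : ℂ) - z i‖)) +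
        n i * Real.log ‖(x : ℂ) - z i‖) := by
    intro i hi
    have hd0 := hpos i hi
    rw [← mul_add, Real.exp_nat_mul]
    congr 1
    by_cases hpi : p i
    · have h2 : ‖(x : ℂ) - z i‖ < r := hpi
      simp only [hpi, if_true, Complex.norm_real, Real.norm_of_nonneg hr.le]
      rw [max_eq_right (Real.log_nonneg (by rw [le_div_iff₀ hd0]; linarith)),
        Real.log_div hr.ne' hd0.ne', sub_add_cancel, Real.exp_log hr]
    · have h2 : r ≤ ‖(x : ℂ) - z i‖ := not_lt.mp hpi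
      simp only [hpi, if_false]
      rw [max_eq_left (Real.log_nonpos (by positivity) (by rw [div_le_iff₀ hd0]; linarith)),
        zero_add, Real.exp_log hd0]
  rw [Finset.prod_congr rfl hterm, ← Real.exp_sum, ← Real.exp_add, ← Real.exp_add, hB,
    Real.exp_le_exp, Finset.sum_add_distrib, Complex.ofReal_re] at hmax
  linarith

theorem mass (hP : S_P1) : S_MASS := by
  intro ι t n z M a c ha h
  obtain ⟨s, hs, hne, hsum⟩ := hP ι t (fun i => (n i : ℝ)) (fun i => (z i).re) 48 (by norm_num)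
    (fun i _ => Nat.cast_nonneg _)
  set N : ℝ := ∑ i ∈ t, (n i : ℝ) with hN
  have hN0 : 0 ≤ N := Finset.sum_nonneg fun i _ => Nat.cast_nonneg _
  set y0 : ℝ := 4 / √48 with hy0
  have h48 : (0 : ℝ) < √48 := by positivity
  have hy0p : 0 < y0 := by positivity
  have hy0sq : y0 ^ 2 = 1 / 3 := by
    rw [hy0, div_pow, Real.sq_sqrt (by norm_num)]; norm_num
  have hy01 : y0 ≤ 1 := by nlinarith
  have hlog0 : 2 * Real.log y0 ≤ -1 := by
    have e : 2 * Real.log y0 = -Real.log 3 := by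
      rw [← Real.log_inv, show (3 : ℝ)⁻¹ = y0 ^ 2 by rw [hy0sq]; norm_num, Real.log_pow]
      norm_num
    have : 1 ≤ Real.log 3 := by
      rw [Real.le_log_iff_exp_le (by norm_num)]
      linarith [Real.exp_one_lt_d9]
    linarith
  set w : ι → ℝ := fun i => ‖(s : ℂ) - z i‖ with hw
  set y : ι → ℝ := fun i => 1 / √|s - (z i).re| with hy
  have hd : ∀ i ∈ t, 0 < |s - (z i).re| := fun i hi => abs_pos.mpr (sub_ne_zero.mpr (hne i hi))
  have hwd : ∀ i, |s - (z i).re| ≤ w i := by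
    intro i
    have := Complex.abs_re_le_norm ((s : ℂ) - z i)
    simpa using this
  have hw0 : ∀ i ∈ t, 0 < w i := fun i hi => (hd i hi).trans_le (hwd i)
  have hyp : ∀ i ∈ t, 0 < y i := fun i hi => by
    have := hd i hi
    simp only [hy]; positivity
  have hwy : ∀ i ∈ t, 1 ≤ w i * y i ^ 2 := by
    intro i hi
    have h0 := hd i hi
    simp only [hy]
    rw [div_pow, Real.sq_sqrt h0.le, one_pow, mul_one_div, le_div_iff₀ h0, one_mul]
    exact hwd i
  have hsum' : ∑ i ∈ t, n i * y i ≤ y0 * N := by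
    refine le_trans (le_of_eq ?_) hsum
    refine Finset.sum_congr rfl fun i _ => ?_
    simp only [hy]; ring
  have hmain : a + ∑ i ∈ t, n i * Real.log (w i) ≤ M * (48 - c) := by
    have h1 := h s hs
    have e : ∏ i ∈ t, ‖(s : ℂ) - z i‖ ^ n i = Real.exp (∑ i ∈ t, n i * Real.log (w i)) := by
      rw [Real.exp_sum]
      refine Finset.prod_congr rfl fun i hi => ?_
      rw [Real.exp_nat_mul, Real.exp_log (hw0 i hi)]
    rw [e, ← Real.exp_add, Real.exp_le_exp] at h1
    have hM : (0 : ℝ) ≤ M := Nat.cast_nonneg M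
    have : (M : ℝ) * (s - c) ≤ M * (48 - c) := by
      have := hs.2
      gcongr
    linarith
  have hl1 : ∀ i ∈ t, 3 - 2 * (y i / y0) ≤ Real.log (w i) := by
    intro i hi
    have h1 : 0 ≤ Real.log (w i) + 2 * Real.log (y i) := by
      have := Real.log_nonneg (hwy i hi)
      rw [Real.log_mul (hw0 i hi).ne' (pow_pos (hyp i hi) 2).ne', Real.log_pow] at this
      simpa using this
    have h2 : Real.log (y i / y0) ≤ y i / y0 - 1 :=
      Real.log_le_sub_one_of_pos (div_pos (hyp i hi) hy0p)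
    rw [Real.log_div (hyp i hi).ne' hy0p.ne'] at h2
    linarith
  have hA : N ≤ ∑ i ∈ t, n i * Real.log (w i) := by
    have h1 : ∑ i ∈ t, (n i : ℝ) * (3 - 2 * (y i / y0)) ≤ ∑ i ∈ t, n i * Real.log (w i) :=
      Finset.sum_le_sum fun i hi => mul_le_mul_of_nonneg_left (hl1 i hi) (Nat.cast_nonneg _)
    have h2 : ∑ i ∈ t, (n i : ℝ) * (3 - 2 * (y i / y0)) =
        3 * N - 2 / y0 * ∑ i ∈ t, n i * y i := by
      rw [hN, Finset.mul_sum, Finset.mul_sum, ← Finset.sum_sub_distrib]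
      refine Finset.sum_congr rfl fun i _ => ?_
      ring
    have h3 : 2 / y0 * ∑ i ∈ t, n i * y i ≤ 2 / y0 * (y0 * N) := by gcongr
    have h4 : 2 / y0 * (y0 * N) = 2 * N := by field_simp
    linarith
  have hNb : N ≤ M * (48 - c) := by linarith
  refine ⟨hNb, ?_⟩
  have hl2 : ∀ i ∈ t, Real.log (max 1 ‖z i‖) ≤ Real.log (w i) + 5 + 2 * y i := by
    intro i hi
    have hwi := hw0 i hi
    have hyi := hyp i hi
    have h1 : max 1 ‖z i‖ ≤ w i * (49 * (1 + y i) ^ 2) := by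
      have hz : ‖z i‖ ≤ w i + 48 := by
        have e : z i = (s : ℂ) - ((s : ℂ) - z i) := by ring
        have : ‖z i‖ ≤ ‖(s : ℂ)‖ + w i := by
          conv_lhs => rw [e]
          exact norm_sub_le _ _
        rw [Complex.norm_real, Real.norm_of_nonneg hs.1] at this
        linarith [hs.2]
      have h2 := hwy i hi
      have h3 : 0 ≤ w i * y i := by positivity
      apply max_le <;> nlinarith
    have h2 : (49 : ℝ) ≤ Real.exp 5 := by
      have := Real.exp_one_gt_d9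
      have e : Real.exp 5 = Real.exp 1 ^ 5 := by rw [← Real.exp_nat_mul]; norm_num
      rw [e]
      calc (49 : ℝ) ≤ 2.7 ^ 5 := by norm_num
        _ ≤ _ := by gcongr; linarith
    have h3 : (1 + y i) ^ 2 ≤ Real.exp (2 * y i) := by
      have e : Real.exp (2 * y i) = Real.exp (y i) ^ 2 := by
        rw [← Real.exp_nat_mul]; norm_num
      rw [e]
      gcongr
      linarith [Real.add_one_le_exp (y i)]
    rw [Real.log_le_iff_le_exp (by positivity), Real.exp_add, Real.exp_add, Real.exp_log hwi]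
    calc _ ≤ w i * (49 * (1 + y i) ^ 2) := h1
      _ ≤ w i * (Real.exp 5 * Real.exp (2 * y i)) := by gcongr
      _ = _ := by ring
  have h1 : ∑ i ∈ t, (n i : ℝ) * Real.log (max 1 ‖z i‖) ≤
      ∑ i ∈ t, (n i : ℝ) * (Real.log (w i) + 5 + 2 * y i) :=
    Finset.sum_le_sum fun i hi => mul_le_mul_of_nonneg_left (hl2 i hi) (Nat.cast_nonneg _)
  have h2 : ∑ i ∈ t, (n i : ℝ) * (Real.log (w i) + 5 + 2 * y i) =
      ∑ i ∈ t, n i * Real.log (w i) + 5 * N + 2 * ∑ i ∈ t, n i * y i := by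
    rw [hN, Finset.mul_sum, Finset.mul_sum, ← Finset.sum_add_distrib, ← Finset.sum_add_distrib]
    refine Finset.sum_congr rfl fun i _ => ?_
    ring
  have h3 : y0 * N ≤ N := by nlinarith
  linarith

theorem ext (hM : S_MASS) : S_EXT := by
  classical
  intro L₀
  refine ⟨2 * L₀ + 10000, fun R lam hR h0 hl hc => ?_⟩
  obtain ⟨M, P, hMp, hP, hb⟩ := hc
  refine ⟨M, P, hMp, hP, fun x hx => ?_⟩
  by_cases hxR : x ≤ R
  · exact hb x ⟨hx, hxR⟩
  push Not at hxR
  set s : Multiset ℂ := P.aroots ℂ with hs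
  set a : ℝ := Real.log |(P.leadingCoeff : ℝ)| with ha
  have hlc : (1 : ℝ) ≤ |(P.leadingCoeff : ℝ)| := by
    have : P.leadingCoeff ≠ 0 := leadingCoeff_ne_zero.mpr hP
    exact_mod_cast Int.one_le_abs this
  have ha0 : 0 ≤ a := Real.log_nonneg hlc
  have hfac : ∀ y : ℝ, |aeval y P| =
      Real.exp a * ∏ i ∈ s.toFinset, ‖(y : ℂ) - i‖ ^ s.count i := by
    intro y
    have h1 : ((aeval y P : ℝ) : ℂ) = aeval (y : ℂ) P :=
      (aeval_algebraMap_apply ℂ y P).symm
    have h2 : (P.map (algebraMap ℤ ℂ)).Splits := IsAlgClosed.splits _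
    have h3 := h2.eval_eq_prod_roots (y : ℂ)
    rw [eval_map_algebraMap, leadingCoeff_map_of_injective (algebraMap ℤ ℂ).injective_int] at h3
    rw [← Real.norm_eq_abs, ← Complex.norm_real, h1, h3, ha, Real.exp_log (by linarith), norm_mul,
      Finset.prod_multiset_map_count, norm_prod]
    congr 1
    · simp
    · simp only [norm_pow]; rfl
  have hR48 : (48 : ℝ) ≤ R := by linarith
  obtain ⟨hN, hA⟩ := hM ℂ s.toFinset (fun i => s.count i) (fun i => i) M a lam ha0
    (fun y hy => by rw [← hfac]; exact hb y ⟨hy.1, hy.2.trans hR48⟩)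
  have hx0 : 0 ≤ x := hx
  have hM0 : (0 : ℝ) ≤ M := Nat.cast_nonneg M
  have hlg : Real.log (1 + x) ≤ (1 + x) / 96 + 95 := by
    have h1 : Real.log ((1 + x) / 96) ≤ (1 + x) / 96 - 1 :=
      Real.log_le_sub_one_of_pos (by positivity)
    have h2 : Real.log 96 ≤ 96 - 1 := Real.log_le_sub_one_of_pos (by norm_num)
    rw [Real.log_div (by positivity) (by norm_num)] at h1
    linarith
  have hlg0 : 0 ≤ Real.log (1 + x) := Real.log_nonneg (by linarith)
  rw [hfac]
  have hb2 : ∏ i ∈ s.toFinset, ‖(x : ℂ) - i‖ ^ s.count i ≤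
      Real.exp (∑ i ∈ s.toFinset, (s.count i * Real.log (max 1 ‖i‖) +
        s.count i * Real.log (1 + x))) := by
    rw [Real.exp_sum]
    refine Finset.prod_le_prod (fun i _ => by positivity) fun i _ => ?_
    rw [← mul_add, Real.exp_nat_mul, Real.exp_add, Real.exp_log (by positivity),
      Real.exp_log (by positivity)]
    gcongr
    have h1 : ‖(x : ℂ) - i‖ ≤ x + ‖i‖ := by
      have := norm_sub_le (x : ℂ) i
      rwa [Complex.norm_real, Real.norm_of_nonneg hx0] at this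
    have h2 := le_max_left 1 ‖i‖
    have h3 := le_max_right 1 ‖i‖
    nlinarith
  refine le_trans (mul_le_mul_of_nonneg_left hb2 (Real.exp_pos a).le) ?_
  rw [← Real.exp_add, Real.exp_le_exp, Finset.sum_add_distrib, ← Finset.sum_mul]
  have h48 : (M : ℝ) * (48 - lam) ≤ M * 48 := by gcongr; linarith
  have h5 : (∑ i ∈ s.toFinset, (s.count i : ℝ)) * Real.log (1 + x) ≤
      (M * 48) * ((1 + x) / 96 + 95) := by
    have := hN.trans h48
    gcongr
  have h6 : (M : ℝ) * (384 + 48 * ((1 + x) / 96 + 95)) ≤ M * (x - lam) := by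
    gcongr
    linarith
  nlinarith

end Pool.Agent.H691Z.Sss
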