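import Pool.Agent.H691Z.TdProp

/-! The frame extracted from the free points. -/

set_option autoImplicit false

namespace Pool.Agent.H691Z.Td

open Pool.Agent.H431Z.LD Pool.Agent.H655Z.TD

variable {N Col U W : Type} {F : Frame N Col} {L : ℕ}

/-- free points with a free neighbour -/
def Gd (R : SimpleGraph W) (free : W → Prop) (x : W) : Prop := free x ∧ ∃ y, R.Adj x y ∧ free y

/-- a labelled copy of a subdivided edge -/
def Pth (R : SimpleGraph W) (g : W → Lab0 Col L) (x : W) (a : Col) (d : Fin 8) (b : Col)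
    (u : ℕ → W) : Prop :=
  u 0 = x ∧ (∀ i < len L d, R.Adj (u i) (u (i + 1))) ∧ ∀ i ≤ len L d, g (u i) = lab L a d b i

lemma lab_two_ne (hL : 16 ≤ L) (a b : Col) (d : Fin 8) (q : Col × Fin 8) :
    lab L a d b 2 ≠ Sum.inr (Sum.inl q) := by
  have hb := len_bd L d
  by_cases hd : d.val % 2 = 0
  · rw [lab_ev _ _ (by omega) (by omega) hd]; simp
  · rw [lab_od _ _ (by omega) (by omega) hd]; simp

namespace Ctx

variable {S : Sub F L U} {R : SimpleGraph W} {g : W → Lab0 Col L} {free : W → Prop}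
  (C : Ctx S R g free)

include C

lemma gd_adj {x z : W} (hx : Gd R free x) (h : R.Adj x z) : Gd R free z := by
  obtain ⟨f, y, a, b⟩ := hx
  exact ⟨C.prop f b a z h, x, h.symm, f⟩

lemma gd_near {x z : W} {n : ℕ} (hx : Gd R free x) (h : Near R.Adj n x z) : Gd R free z :=
  Near.inv (Gd R free) (fun _ _ a b => C.gd_adj b a) hx h

lemma pth_gd {x : W} {a b : Col} {d : Fin 8} {u : ℕ → W} (hu : Pth R g x a d b u)
    (hx : Gd R free x) {i : ℕ} (hi : i ≤ len L d) : Gd R free (u i) :=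
  C.gd_near (hu.1 ▸ hx) (walk_near hu.2.1 (Nat.zero_le i) hi)

lemma pth_rev {x : W} {a b : Col} {d : Fin 8} {u : ℕ → W} (hu : Pth R g x a d b u) :
    Pth R g (u (len L d)) b (opp d) a fun i => u (len L d - i) := by
  have ho : len L (opp d) = len L d := len_opp d
  refine ⟨rfl, fun i hi => ?_, fun i hi => ?_⟩
  · have := (hu.2.1 (len L d - (i + 1)) (by omega)).symm
    rwa [show len L d - (i + 1) + 1 = len L d - i by omega] at this
  · rw [hu.2.2 _ (by omega), lab_rev C.hL a b d (by omega)]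
    congr 1
    omega

lemma pth_nbw {x : W} {a b : Col} {d : Fin 8} {u : ℕ → W} (hu : Pth R g x a d b u) :
    NBW R u (len L d) :=
  ⟨hu.2.1, fun i hi e => lab_ne2 C.hL hi (by rw [← hu.2.2 i (by omega), ← hu.2.2 _ hi, e])⟩

lemma pth_nbr {x : W} {a b : Col} {d : Fin 8} {u : ℕ → W} (hu : Pth R g x a d b u) {i : ℕ}
    (hi : i + 2 ≤ len L d) {y : W} (hy : R.Adj (u (i + 1)) y) : y = u i ∨ y = u (i + 2) := by
  have hm : ¬ mdl0 (g (u (i + 1))) := by
    rw [hu.2.2 _ (by omega)]
    exact lab_not_mdl C.hL _ _ _ (by omega) (by omega)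
  rcases C.h5 _ _ _ _ hm hy (hu.2.1 i (by omega)).symm (hu.2.1 (i + 1) (by omega)) with e | e | e
  · exact Or.inl e
  · exact Or.inr e
  · exact absurd e.symm ((C.pth_nbw hu).2 i hi)

lemma follow {x : W} {a b : Col} {d : Fin 8} {u : ℕ → W} (hu : Pth R g x a d b u) {v : ℕ → W}
    {n i : ℕ} (hv : NBW R v n) (e0 : v 0 = u i) (e1 : v 1 = u (i + 1)) :
    ∀ k, k ≤ n → i + k ≤ len L d → v k = u (i + k) := by
  have key : ∀ k, k + 1 ≤ n → i + k + 1 ≤ len L d → v k = u (i + k) ∧ v (k + 1) = u (i + k + 1) := by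
    intro k
    induction k with
    | zero => exact fun _ _ => ⟨e0, e1⟩
    | succ k ih =>
      intro h1 h2
      obtain ⟨c1, c2⟩ := ih (by omega) (by omega)
      refine ⟨c2, ?_⟩
      have := hv.1 (k + 1) (by omega)
      rw [c2] at this
      rcases C.pth_nbr hu (by omega) this with e | e
      · exact absurd (e.trans c1.symm) (hv.2 k (by omega))
      · exact e
  intro k h1 h2
  rcases k with _ | k
  · exact e0
  · exact (key k h1 (by omega)).2

lemma pth_unique {x : W} {a b b' : Col} {d : Fin 8} {u u' : ℕ → W} (hu : Pth R g x a d b u)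
    (hu' : Pth R g x a d b' u') : u' (len L d) = u (len L d) := by
  have hL := C.hL
  have hb := len_bd L d
  have e1 : u' 1 = u 1 := by
    refine C.h1 x _ _ (hu'.1 ▸ hu'.2.1 0 (by omega)) (hu.1 ▸ hu.2.1 0 (by omega)) ?_
    rw [hu.2.2 1 (by omega), hu'.2.2 1 (by omega), lab_one hL, lab_one hL]
  have := C.follow hu (C.pth_nbw hu') (i := 0) (hu'.1.trans hu.1.symm) e1 _ le_rfl (by omega)
  rwa [Nat.zero_add] at this

lemma pth_ex {x y : W} (hx : Gd R free x) {a : Col} {d : Fin 8} (ex : g x = Sum.inl a)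
    (hxy : R.Adj x y) (ey : g y = Sum.inr (Sum.inl (a, d))) :
    ∃ b u, F.rel d a b ∧ Pth R g x a d b u ∧ u 1 = y := by
  have hL := C.hL
  have hb := len_bd L d
  obtain ⟨a', b, -, xp, r, ca, -, -, p1, -, p2, -⟩ := C.loc (C.gd_adj hx hxy).1 (a := a) (b := a)
    (d := d) (s := 1) (by omega) (by omega) (by rw [ey, lab_one hL])
  obtain rfl := ca (by omega)
  have key : ∀ k, 2 ≤ k → k ≤ len L d → ∃ u : ℕ → W, u 0 = x ∧ u 1 = y ∧
      (∀ i < k, R.Adj (u i) (u (i + 1))) ∧ ∀ i ≤ k, g (u i) = lab L a' d b i := by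
    intro k hk
    induction k, hk using Nat.le_induction with
    | base =>
      refine fun _ => ⟨fun i => if i = 0 then x else if i = 1 then y else xp, by simp, by simp,
        fun i hi => ?_, fun i hi => ?_⟩
      · interval_cases i
        · simpa using hxy
        · simpa using p1
      · interval_cases i
        · simpa [lab_zero] using ex
        · simpa [lab_one hL] using ey
        · simpa using p2
    | succ k hk ih =>
      intro h
      obtain ⟨u, u0, u1, u2, u3⟩ := ih (by omega)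
      have gk : Gd R free (u k) := C.gd_near (u0 ▸ hx) (walk_near u2 (Nat.zero_le k) le_rfl)
      obtain ⟨a2, b2, -, zp, -, ca, cb, -, q1, -, q2, -⟩ := C.loc gk.1 (by omega) (by omega)
        (u3 k le_rfl)
      refine ⟨fun i => if i ≤ k then u i else zp, by simpa using u0,
        by simpa [show 1 ≤ k by omega] using u1, fun i hi => ?_, fun i hi => ?_⟩
      · by_cases c : i < k
        · simp only [if_pos c.le, if_pos (show i + 1 ≤ k by omega)]
          exact u2 i c
        · obtain rfl : i = k := by omega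
          simpa using q1
      · by_cases c : i ≤ k
        · simp only [if_pos c]
          exact u3 i c
        · obtain rfl : i = k + 1 := by omega
          simp only [if_neg c]
          rw [q2]
          exact lab_congr hL h (fun c => ca (by omega)) (fun _ => cb (by omega))
  obtain ⟨u, u0, u1, u2, u3⟩ := key (len L d) (by omega) le_rfl
  exact ⟨b, u, r, ⟨u0, u2, u3⟩, u1⟩

lemma start {x y : W} (hx : Gd R free x) {a : Col} (ex : g x = Sum.inl a) (hxy : R.Adj x y) :
    ∃ d b u, F.rel d a b ∧ Pth R g x a d b u ∧ u 1 = y := by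
  obtain ⟨n, -, -, c2⟩ := C.locn hx.1 ex
  obtain ⟨d, -, e⟩ := c2 y hxy
  exact ⟨d, C.pth_ex hx ex hxy e⟩

lemma nbr_lab {x y : W} (hx : Gd R free x) {a : Col} (ex : g x = Sum.inl a) (hxy : R.Adj x y) :
    ∃ q, g y = Sum.inr (Sum.inl q) := by
  obtain ⟨n, -, -, c2⟩ := C.locn hx.1 ex
  obtain ⟨d, -, e⟩ := c2 y hxy
  exact ⟨_, e⟩

/-- a walk leaving a node follows a subdivided edge -/
lemma leave {v : ℕ → W} {n j : ℕ} (hv : NBW R v n) (hj : j < n) (hx : Gd R free (v j)) {a : Col}
    (ex : g (v j) = Sum.inl a) :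
    ∃ d b u, F.rel d a b ∧ Pth R g (v j) a d b u ∧
      ∀ k, j + k ≤ n → k ≤ len L d → v (j + k) = u k := by
  obtain ⟨d, b, u, r, p, e⟩ := C.start hx ex (hv.1 j hj)
  refine ⟨d, b, u, r, p, fun k h1 h2 => ?_⟩
  have := C.follow p (hv.shift j) (i := 0) p.1.symm e.symm k (by omega) (by omega)
  rwa [Nat.zero_add] at this

lemma far {x : W} {a b : Col} {d : Fin 8} {u : ℕ → W} (hu : Pth R g x a d b u) {n : N}
    (hw : ∀ y, Near R.Adj 2 x y → ∃ p, Near S.G.Adj 2 (S.pt n 0 0) p ∧ S.fc p = g y) :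
    ∃ m, F.nb n d = some m ∧ F.col m = b := by
  have hL := C.hL
  have hb := len_bd L d
  obtain ⟨p, p1, p2⟩ := hw (u 2) (hu.1 ▸ walk_near hu.2.1 (Nat.zero_le 2) (by omega))
  obtain ⟨e, m, s, hm, hs, rfl⟩ := near2_node S C.hF hL p1
  have hb' := len_bd L e
  rw [S.fc_pt n e m s hm (by omega), hu.2.2 2 (by omega)] at p2
  rcases lab_cls hL (by omega) (by omega) (by omega) p2.symm with ⟨rfl, -, -, c⟩ | ⟨-, c, -⟩
  · exact ⟨m, hm, c (by omega)⟩
  · omega

lemma square {x : W} {a : Col} (hx : Gd R free x) (ex : g x = Sum.inl a) {n : N} {d1 d2 : Fin 8}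
    (hn : F.col n = a) (hsq : F.Sq n d1 d2) (hV : isV d1) {b b' : Col} {u1 u2 : ℕ → W}
    (r1 : F.rel d1 a b) (p1 : Pth R g x a d1 b u1) (r2 : F.rel d2 a b')
    (p2 : Pth R g x a d2 b' u2) :
    ∃ c q1 q2, F.rel d2 b c ∧ Pth R g (u1 (len L d1)) b d2 c q1 ∧ F.rel d1 b' c ∧
      Pth R g (u2 (len L d2)) b' d1 c q2 ∧ q1 (len L d2) = q2 (len L d1) := by
  have hL := C.hL
  have hH : ¬ isV d2 := hsq.1.1 hV
  have l1 : len L d1 = L - 1 := len_V hV
  have l2 : len L d2 = L := len_H hH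
  have lo : len L (opp d1) = L - 1 := (len_opp d1).trans l1
  obtain ⟨w, ew, hw⟩ := C.h6 x hx.1 ⟨a, ex⟩
  obtain ⟨n', hn', hw'⟩ := norm_node S hL (ew.trans ex)
  rw [hw' 0] at hw
  obtain ⟨M1, hM1, rfl⟩ := C.far p1 hw
  obtain ⟨M2, hM2, rfl⟩ := C.far p2 hw
  have hsq' := C.hF.sq n n' d1 d2 (hn.trans hn'.symm) hsq
  obtain ⟨u', a1, a2, a3, a4⟩ := C.arc (s0 := 1) (F.nb_opp _ _ _ hM1)
    (by rw [opp_opp]; exact hsq') (by omega)
  let u : ℕ → W := fun i => if i ≤ L - 2 then u1 (L - 2 - i) else u2 (i - (L - 2))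
  have ul : ∀ i ≤ L - 2, u i = u1 (L - 2 - i) := fun i hi => by simp [u, hi]
  have ur : ∀ i, L - 2 ≤ i → u i = u2 (i - (L - 2)) := by
    intro i hi
    by_cases c : i ≤ L - 2
    · obtain rfl : i = L - 2 := by omega
      rw [ul _ le_rfl, Nat.sub_self, p1.1, p2.1]
    · simp [u, c]
  have hadj : ∀ i < 2 * L - 2, R.Adj (u i) (u (i + 1)) := by
    intro i hi
    by_cases c : i < L - 2
    · rw [ul i c.le, ul (i + 1) c]
      have := (p1.2.1 (L - 2 - (i + 1)) (by omega)).symm
      rwa [show L - 2 - (i + 1) + 1 = L - 2 - i by omega] at this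
    · rw [ur i (by omega), ur (i + 1) (by omega), show i + 1 - (L - 2) = i - (L - 2) + 1 by omega]
      exact p2.2.1 _ (by omega)
  have hlab : ∀ i, i ≤ 2 * L - 2 → g (u i) = S.fc (u' i) := by
    intro i hi
    by_cases c : i ≤ L - 2
    · rw [ul i c, a2 i (by omega), S.fc_pt _ _ _ _ (F.nb_opp _ _ _ hM1) (by omega),
        p1.2.2 _ (by omega), lab_rev hL _ _ d1 (by omega), hn']
      congr 1
      omega
    · rw [ur i (by omega), a3 i hi (by omega) (by omega), S.fc_pt _ _ _ _ hM2 (by omega),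
        p2.2.2 _ (by omega), hn']
      congr 1
      omega
  have u0 : u 0 = u1 (L - 2) := ul 0 (by omega)
  have uN : u (2 * L - 2) = u2 L := by rw [ur _ (by omega)]; congr 1; omega
  have gX : Gd R free (u1 (L - 2)) := C.pth_gd p1 hx (by omega)
  have gY : Gd R free (u2 L) := C.pth_gd p2 hx (by omega)
  have gM : Gd R free (u1 (L - 1)) := C.pth_gd p1 hx (by omega)
  have eY : g (u2 L) = Sum.inl (F.col M2) := by
    have := p2.2.2 _ le_rfl
    rwa [lab_len hL, l2] at this
  have eM : g (u1 (L - 1)) = Sum.inl (F.col M1) := by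
    have := p1.2.2 _ le_rfl
    rwa [lab_len hL, l1] at this
  obtain ⟨hn, hZ⟩ := C.h3 u u' (u0 ▸ gX.1) hadj a1 (fun i _ hi => hlab i hi)
    (Or.inl (hlab 0 (by omega))) (by
      rw [u0, ul 2 (by omega), p1.2.2 _ (by omega), p1.2.2 _ (by omega)]
      exact lab_ne hL (by omega) (by omega) (by omega) (by omega)) (Or.inl a4)
  rw [u0, uN] at hn hZ
  have dich : ∀ {v : ℕ → W} {k : ℕ}, NBW R v k → L - 1 ≤ k → v 0 = u1 (L - 2) →
      v 1 = u1 (L - 1) ∨ v (L - 2) = x := by
    intro v k hv hk e0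
    have h01 := hv.1 0 (by omega)
    rw [e0, show L - 2 = L - 3 + 1 by omega] at h01
    rcases C.pth_nbr p1 (by omega) h01 with e | e
    · right
      have := C.follow (C.pth_rev p1) hv (i := 1) (by rw [e0]; congr 1; omega)
        (by rw [Nat.zero_add] at e; rw [e]; congr 1; omega) (L - 2) (by omega) (by omega)
      rw [this, ← p1.1]
      congr 1
      omega
    · left
      rw [Nat.zero_add] at e
      rw [e]; congr 1; omega
  rcases hZ with ⟨z, z1, z2⟩ | ⟨μ, m0, m1, m2⟩
  · obtain ⟨v, v1, v2, v3, -⟩ := z1.walk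
    obtain ⟨v', w1, w2, w3, -⟩ := z2.walk
    obtain ⟨e', c', q', r', p', f'⟩ := C.leave w1 (j := 0) (by omega) (w2 ▸ gY) (w2 ▸ eY)
    rw [w2] at p'
    have hb' := len_bd L e'
    have A : (¬ isV e' ∧ g z = Sum.inl c') ∨
        (isV e' ∧ R.Adj (q' (len L e')) z ∧ ∃ q, g z = Sum.inr (Sum.inl q)) := by
      have el : g (q' (len L e')) = Sum.inl c' := by rw [p'.2.2 _ le_rfl, lab_len hL]
      by_cases c : isV e'
      · have hl : len L e' = L - 1 := len_V c
        have ha : R.Adj (q' (len L e')) z := by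
          have := w1.1 (L - 1) (by omega)
          rw [show L - 1 + 1 = L by omega, w3] at this
          rw [← f' _ (by omega) le_rfl, hl, Nat.zero_add]
          exact this
        exact Or.inr ⟨c, ha, C.nbr_lab (C.pth_gd p' gY le_rfl) el ha⟩
      · have hl : len L e' = L := len_H c
        refine Or.inl ⟨c, ?_⟩
        rw [← el, ← f' _ (by omega) le_rfl, hl, Nat.zero_add, w3]
    rcases dich v1 (by omega) v2 with up | down
    · obtain ⟨e, c, q, r, p, f⟩ := C.leave v1 (j := 1) (by omega) (up ▸ gM) (up ▸ eM)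
      rw [up] at p
      have hb := len_bd L e
      have ez : z = q (L - 1) := by
        rw [← f _ (by omega) (by omega), show 1 + (L - 1) = L by omega, v3]
      by_cases cV : isV e
      · exfalso
        have hl : len L e = L - 1 := len_V cV
        have el : g z = Sum.inl c := by rw [ez, ← hl, p.2.2 _ le_rfl, lab_len hL]
        rcases A with ⟨c1, c2⟩ | ⟨-, -, q0, c2⟩
        · obtain rfl : c = c' := Sum.inl.inj (el.symm.trans c2)
          obtain rfl := C.hF.par2 d1 d2 e e' _ _ _ _ r1 r2 r r' hV hH cV c1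
          refine v1.2 0 (by omega) ?_
          rw [v2, show 0 + 2 = 1 + 1 from rfl, f 1 (by omega) (by omega)]
          refine C.h1 (u1 (L - 1)) _ _ (p.1 ▸ p.2.1 0 (by omega)) ?_ ?_
          · have := (p1.2.1 (L - 2) (by omega)).symm
            rwa [show L - 2 + 1 = L - 1 by omega] at this
          · rw [p.2.2 1 (by omega), p1.2.2 _ (by omega), lab_one hL, lab_pen hL _ _ _ (by omega)]
        · rw [el] at c2; simp at c2
      · have hl : len L e = L := len_H cV
        rcases A with ⟨-, c2⟩ | ⟨c1, c2, -⟩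
        · exfalso
          rw [ez, p.2.2 _ (by omega)] at c2
          exact lab_not_mdl hL _ _ _ (by omega) (by omega) ⟨_, c2⟩
        · have el : g (q' (len L e')) = Sum.inl c' := by rw [p'.2.2 _ le_rfl, lab_len hL]
          have hq : q' (len L e') = q (len L e) := by
            rw [ez, show L - 1 = L - 2 + 1 by omega] at c2
            rcases C.pth_nbr p (by omega) c2.symm with t | t
            · exfalso
              rw [t, p.2.2 _ (by omega)] at el
              exact lab_not_mdl hL _ _ _ (by omega) (by omega) ⟨_, el⟩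
            · rw [t]; congr 1; omega
          obtain rfl : c = c' := by
            rw [hq, p.2.2 _ le_rfl, lab_len hL] at el
            exact Sum.inl.inj el
          obtain ⟨rfl, rfl⟩ := C.hF.par d1 d2 e e' _ _ _ _ r1 r2 r r' hV hH cV c1
          refine ⟨c, q, q', r, ?_, r', ?_, hq.symm⟩
          · rw [l1]; exact p
          · rw [l2]; exact p'
    · exfalso
      obtain ⟨e, c, q, -, p, f⟩ := C.leave v1 (j := L - 2) (by omega) (down ▸ hx) (down ▸ ex)
      have hb := len_bd L e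
      have ez : g z = lab L a e c 2 := by
        rw [← p.2.2 2 (by omega), ← f _ (by omega) (by omega), show L - 2 + 2 = L by omega, v3]
      rcases A with ⟨-, c2⟩ | ⟨-, -, q0, c2⟩
      · exact lab_not_mdl hL _ _ _ (by omega) (by omega) ⟨_, ez.symm.trans c2⟩
      · exact lab_two_ne hL _ _ _ _ (ez.symm.trans c2)
  · exfalso
    obtain ⟨k, hk, z1⟩ := exists_ex m1
    by_cases c : k ≤ L - 2
    · exact hn ((z1.1.trans (nsymm m2)).mono (by omega))
    obtain rfl : k = L - 1 := by omega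
    obtain ⟨v, v1, v2, v3, -⟩ := z1.walk
    rcases dich v1 le_rfl v2 with up | down
    · obtain ⟨e, c, q, -, p, f⟩ := C.leave v1 (j := 1) (by omega) (up ▸ gM) (up ▸ eM)
      have hb := len_bd L e
      rw [← v3, show L - 1 = 1 + (L - 2) by omega, f _ (by omega) (by omega),
        p.2.2 _ (by omega)] at m0
      exact lab_not_mdl hL _ _ _ (by omega) (by omega) m0
    · have ha := v1.1 (L - 2) (by omega)
      rw [down, show L - 2 + 1 = L - 1 by omega, v3] at ha
      obtain ⟨q, hq⟩ := C.nbr_lab hx ex ha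
      obtain ⟨c, hc⟩ := m0
      rw [hq] at hc
      simp at hc

lemma ex_node {x : W} (hx : Gd R free x) : ∃ y, Gd R free y ∧ mdl0 (g y) := by
  have hL := C.hL
  obtain ⟨w, e, -⟩ := C.h2 x hx.1
  obtain ⟨n, d, m, s, hn, hs, rfl⟩ := S.surj w
  rw [S.fc_pt n d m s hn hs.le] at e
  generalize F.col n = a at e
  generalize F.col m = b at e
  induction s generalizing x a b with
  | zero => exact ⟨x, hx, a, by rw [← e, lab_zero]⟩
  | succ s ih =>
    obtain ⟨a', b', xm, -, -, -, -, c1, -, c2, -⟩ := C.loc hx.1 (by omega) hs e.symm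
    exact ih (C.gd_adj hx c1) (by omega) a' b' c2.symm

theorem main [Finite W] {x0 x1 : W} (f0 : free x0) (f1 : free x1) (a01 : R.Adj x0 x1) :
    ∃ (N' : Type) (_ : Finite N') (_ : Nonempty N') (F' : Frame N' Col),
      Nat.card N' ≤ Nat.card W ∧ F'.Modelled F := by
  classical
  have hL := C.hL
  let N' := {x : W // Gd R free x ∧ mdl0 (g x)}
  let col : N' → Col := fun x => x.2.2.choose
  have hcol : ∀ x : N', g x.1 = Sum.inl (col x) := fun x => x.2.2.choose_spec
  let P : N' → Fin 8 → N' → Prop := fun x d y =>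
    ∃ u, F.rel d (col x) (col y) ∧ Pth R g x.1 (col x) d (col y) u ∧ u (len L d) = y.1
  let nb : N' → Fin 8 → Option N' := fun x d => if h : ∃ y, P x d y then some h.choose else none
  have nb_iff : ∀ x d y, nb x d = some y ↔ P x d y := by
    intro x d y
    constructor
    · intro h
      simp only [nb] at h
      split_ifs at h with c
      exact Option.some.inj h ▸ c.choose_spec
    · intro h
      have c : ∃ y, P x d y := ⟨y, h⟩
      simp only [nb, dif_pos c]
      obtain ⟨u, -, a, b⟩ := h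
      obtain ⟨u', -, a', b'⟩ := c.choose_spec
      congr 1
      exact Subtype.ext (by rw [← b, ← b']; exact C.pth_unique a a')
  have mk : ∀ (x : N') (d : Fin 8) (b : Col) (u : ℕ → W), F.rel d (col x) b →
      Pth R g x.1 (col x) d b u → ∃ y : N', col y = b ∧ u (len L d) = y.1 ∧ P x d y := by
    intro x d b u r p
    have e : g (u (len L d)) = Sum.inl b := by rw [p.2.2 _ le_rfl, lab_len hL]
    let y : N' := ⟨u (len L d), C.pth_gd p x.2.1 le_rfl, b, e⟩
    have hy : col y = b := Sum.inl.inj ((hcol y).symm.trans e)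
    exact ⟨y, hy, rfl, u, hy ▸ r, hy ▸ p, rfl⟩
  have some : ∀ (x : N') (n : N) (d : Fin 8), F.col n = col x → (F.nb n d).isSome →
      ∃ y, P x d y := by
    intro x n d hn hd
    obtain ⟨n', hn', c1, -⟩ := C.locn x.2.1.1 (hcol x)
    obtain ⟨y, y1, y2⟩ := c1 d (C.hF.pres n n' d (hn.trans hn'.symm) hd)
    obtain ⟨b, u, r, p, -⟩ := C.pth_ex x.2.1 (hcol x) y1 y2
    obtain ⟨y, -, -, h⟩ := mk x d b u r p
    exact ⟨y, h⟩
  let F' : Frame N' Col :=
    { col := col
      nb := nb
      nb_opp := fun x d y h => by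
        obtain ⟨u, r, p, e⟩ := (nb_iff _ _ _).1 h
        refine (nb_iff _ _ _).2 ⟨_, rel_opp r, e ▸ C.pth_rev p, ?_⟩
        simp only [len_opp, Nat.sub_self]
        exact p.1 }
  have sqV : ∀ (x : N') (n : N) (d1 d2 : Fin 8), F.col n = col x → F.Sq n d1 d2 → isV d1 →
      F'.Sq x d1 d2 := by
    intro x n d1 d2 hn hsq hV
    obtain ⟨⟨k1, hk1⟩, k2, hk2⟩ := sq_some hsq
    obtain ⟨m1, h1⟩ := some x n d1 hn (by simp [hk1])
    obtain ⟨m2, h2⟩ := some x n d2 hn (by simp [hk2])
    have h1' := h1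
    have h2' := h2
    obtain ⟨u1, r1, p1, e1⟩ := h1
    obtain ⟨u2, r2, p2, e2⟩ := h2
    obtain ⟨c, q1, q2, s1, t1, s2, t2, e⟩ := C.square x.2.1 (hcol x) hn hsq hV r1 p1 r2 p2
    rw [e1] at t1
    rw [e2] at t2
    obtain ⟨z, -, z1, z2⟩ := mk m1 d2 c q1 s1 t1
    obtain ⟨z', -, z1', z2'⟩ := mk m2 d1 c q2 s2 t2
    obtain rfl : z = z' := Subtype.ext (by rw [← z1, ← z1', e])
    exact ⟨hsq.1, m1, m2, z, (nb_iff _ _ _).2 h1', (nb_iff _ _ _).2 h2', (nb_iff _ _ _).2 z2,
      (nb_iff _ _ _).2 z2'⟩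
  obtain ⟨y0, hy0⟩ := C.ex_node (x := x0) ⟨f0, x1, a01, f1⟩
  refine ⟨N', inferInstance, ⟨⟨y0, hy0⟩⟩, F',
    Nat.card_le_card_of_injective Subtype.val Subtype.val_injective, ?_, ?_, ?_⟩
  · intro x
    obtain ⟨n, hn, -⟩ := C.locn x.2.1.1 (hcol x)
    refine ⟨n, hn, fun d => ⟨fun h => ?_, fun h => ?_⟩⟩
    · obtain ⟨y, hy⟩ := Option.isSome_iff_exists.1 h
      obtain ⟨u, ⟨n1, m1, a, -, c⟩, -⟩ := (nb_iff _ _ _).1 hy
      exact C.hF.pres n1 n d (a.trans hn.symm) (by simp [c])
    · obtain ⟨y, hy⟩ := some x n d hn h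
      exact Option.isSome_iff_exists.2 ⟨y, (nb_iff _ _ _).2 hy⟩
  · intro x d y h
    obtain ⟨u, r, -⟩ := (nb_iff _ _ _).1 h
    exact r
  · intro x n d1 d2 hn hsq
    by_cases c : isV d1
    · exact sqV x n d1 d2 hn hsq c
    · exact sq_symm (sqV x n d2 d1 hn (sq_symm hsq) (by_contra fun y => c (hsq.1.2 y)))

end Ctx

end Pool.Agent.H691Z.Td
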