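import Pool.Agent.H655Z.TD.Walk

/-! Labels and local structure of subdivided frames. -/

set_option autoImplicit false

namespace Pool.Agent.H691Z.Td

open Pool.Agent.H431Z.LD Pool.Agent.H655Z.TD

variable {N Col U : Type} {L : ℕ}

lemma opp_opp (d : Fin 8) : opp (opp d) = d := by revert d; decide
lemma opp_ne (d : Fin 8) : opp d ≠ d := by revert d; decide
lemma isV_opp (d : Fin 8) : isV (opp d) ↔ isV d := by revert d; decide
lemma par_opp (d : Fin 8) : (opp d).val % 2 = 0 ↔ ¬ d.val % 2 = 0 := by revert d; decide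
lemma len_opp (d : Fin 8) : len L (opp d) = len L d := by simp [len, isV_opp]
lemma len_V {d : Fin 8} (h : isV d) : len L d = L - 1 := by simp [len, h]
lemma len_H {d : Fin 8} (h : ¬ isV d) : len L d = L := by simp [len, h]
lemma len_bd (L : ℕ) (d : Fin 8) : L - 1 ≤ len L d ∧ len L d ≤ L := by
  unfold len; split_ifs <;> omega

lemma lab_zero (a b : Col) (d : Fin 8) : lab L a d b 0 = Sum.inl a := by simp [lab]

lemma lab_len (hL : 16 ≤ L) (a b : Col) (d : Fin 8) : lab L a d b (len L d) = Sum.inl b := by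
  have := len_bd L d
  unfold lab
  rw [if_neg (by omega), if_pos rfl]

lemma lab_one (hL : 16 ≤ L) (a b : Col) (d : Fin 8) :
    lab L a d b 1 = Sum.inr (Sum.inl (a, d)) := by
  have := len_bd L d
  unfold lab
  rw [if_neg (by omega), if_neg (by omega), if_pos rfl]

lemma lab_pen (hL : 16 ≤ L) (a b : Col) (d : Fin 8) {s : ℕ} (hs : s + 1 = len L d) :
    lab L a d b s = Sum.inr (Sum.inl (b, opp d)) := by
  have := len_bd L d
  unfold lab
  rw [if_neg (by omega), if_neg (by omega), if_neg (by omega), if_pos hs]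

lemma lab_ev (a b : Col) {d : Fin 8} {s : ℕ} (h1 : 1 < s) (h2 : s + 1 < len L d)
    (hd : d.val % 2 = 0) :
    lab L a d b s = Sum.inr (Sum.inr (a, d, b, ⟨min s L, by omega⟩)) := by
  unfold lab
  rw [if_neg (by omega), if_neg (by omega), if_neg (by omega), if_neg (by omega), if_pos hd]

lemma lab_od (a b : Col) {d : Fin 8} {s : ℕ} (h1 : 1 < s) (h2 : s + 1 < len L d)
    (hd : ¬ d.val % 2 = 0) :
    lab L a d b s = Sum.inr (Sum.inr (b, opp d, a, ⟨min (len L d - s) L, by omega⟩)) := by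
  unfold lab
  rw [if_neg (by omega), if_neg (by omega), if_neg (by omega), if_neg (by omega), if_neg hd]

lemma lab_rev (hL : 16 ≤ L) (a b : Col) (d : Fin 8) {s : ℕ} (hs : s ≤ len L d) :
    lab L a d b s = lab L b (opp d) a (len L d - s) := by
  have hb := len_bd L d
  have ho : len L (opp d) = len L d := len_opp d
  by_cases h0 : s = 0
  · subst h0
    rw [lab_zero, Nat.sub_zero, ← ho, lab_len hL]
  by_cases h1 : s = len L d
  · subst h1
    rw [lab_len hL, Nat.sub_self, lab_zero]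
  by_cases h2 : s = 1
  · subst h2
    rw [lab_one hL, lab_pen hL _ _ _ (by omega), opp_opp]
  by_cases h3 : s + 1 = len L d
  · rw [lab_pen hL _ _ _ h3, show len L d - s = 1 by omega, lab_one hL]
  by_cases hd : d.val % 2 = 0
  · rw [lab_ev _ _ (by omega) (by omega) hd,
      lab_od _ _ (by omega) (by omega) (by rw [par_opp]; simpa using hd)]
    simp only [opp_opp, ho]
    congr 6
    omega
  · rw [lab_od _ _ (by omega) (by omega) hd,
      lab_ev _ _ (by omega) (by omega) (by rw [par_opp]; simpa using hd)]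

lemma lab_not_mdl (_hL : 16 ≤ L) (a b : Col) (d : Fin 8) {s : ℕ} (h0 : 0 < s) (h1 : s < len L d) :
    ¬ mdl0 (lab L a d b s) := by
  rintro ⟨c, hc⟩
  unfold lab at hc
  rw [if_neg (by omega), if_neg (by omega)] at hc
  split_ifs at hc

lemma lab_cls (hL : 16 ≤ L) {a b a' b' : Col} {d d' : Fin 8} {s s' : ℕ} (h0 : 0 < s)
    (h1 : s < len L d) (h2 : s' ≤ len L d') (h : lab L a d b s = lab L a' d' b' s') :
    (d' = d ∧ s' = s ∧ (s + 1 < len L d → a' = a) ∧ (1 < s → b' = b)) ∨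
      (d' = opp d ∧ s' + s = len L d ∧ (s + 1 < len L d → b' = a) ∧ (1 < s → a' = b)) := by
  have hb := len_bd L d
  have hb' := len_bd L d'
  have hm := lab_not_mdl hL a b d h0 h1
  have h0' : s' ≠ 0 := by
    rintro rfl
    rw [lab_zero] at h
    exact hm ⟨_, h⟩
  have h1' : s' ≠ len L d' := by
    rintro rfl
    rw [lab_len hL] at h
    exact hm ⟨_, h⟩
  have oo : ∀ {x y : Fin 8}, opp x = opp y → x = y := fun {x y} e => by
    rw [← opp_opp x, e, opp_opp]
  have o2 : ∀ {x y : Fin 8}, x = opp y → y = opp x := fun {x y} e => by rw [e, opp_opp]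
  by_cases c1 : s = 1
  · subst c1
    rw [lab_one hL] at h
    by_cases e1 : s' = 1
    · subst e1
      rw [lab_one hL] at h
      simp only [Sum.inr.injEq, Sum.inl.injEq, Prod.mk.injEq] at h
      exact Or.inl ⟨h.2.symm, rfl, fun _ => h.1.symm, fun c => absurd c (by omega)⟩
    by_cases e2 : s' + 1 = len L d'
    · rw [lab_pen hL _ _ _ e2] at h
      simp only [Sum.inr.injEq, Sum.inl.injEq, Prod.mk.injEq] at h
      have hd := o2 h.2
      subst hd
      rw [len_opp] at e2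
      exact Or.inr ⟨rfl, e2, fun _ => h.1.symm, fun c => absurd c (by omega)⟩
    by_cases hd : d'.val % 2 = 0
    · rw [lab_ev _ _ (by omega) (by omega) hd] at h; simp at h
    · rw [lab_od _ _ (by omega) (by omega) hd] at h; simp at h
  by_cases c2 : s + 1 = len L d
  · rw [lab_pen hL _ _ _ c2] at h
    by_cases e1 : s' = 1
    · subst e1
      rw [lab_one hL] at h
      simp only [Sum.inr.injEq, Sum.inl.injEq, Prod.mk.injEq] at h
      exact Or.inr ⟨h.2.symm, by omega, fun c => absurd c (by omega), fun _ => h.1.symm⟩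
    by_cases e2 : s' + 1 = len L d'
    · rw [lab_pen hL _ _ _ e2] at h
      simp only [Sum.inr.injEq, Sum.inl.injEq, Prod.mk.injEq] at h
      have hd := oo h.2
      subst hd
      exact Or.inl ⟨rfl, by omega, fun c => absurd c (by omega), fun _ => h.1.symm⟩
    by_cases hd : d'.val % 2 = 0
    · rw [lab_ev _ _ (by omega) (by omega) hd] at h; simp at h
    · rw [lab_od _ _ (by omega) (by omega) hd] at h; simp at h
  have hmid : ∃ q, lab L a d b s = Sum.inr (Sum.inr q) := by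
    by_cases hd : d.val % 2 = 0
    · exact ⟨_, lab_ev _ _ (by omega) (by omega) hd⟩
    · exact ⟨_, lab_od _ _ (by omega) (by omega) hd⟩
  obtain ⟨q, hq⟩ := hmid
  have e1 : s' ≠ 1 := by
    rintro rfl
    rw [lab_one hL, hq] at h; simp at h
  have e2 : s' + 1 ≠ len L d' := by
    intro e
    rw [lab_pen hL _ _ _ e, hq] at h; simp at h
  clear hq
  by_cases hd : d.val % 2 = 0 <;> by_cases hd' : d'.val % 2 = 0
  · rw [lab_ev _ _ (by omega) (by omega) hd, lab_ev _ _ (by omega) (by omega) hd'] at h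
    simp only [Sum.inr.injEq, Prod.mk.injEq, Fin.mk.injEq] at h
    exact Or.inl ⟨h.2.1.symm, by omega, fun _ => h.1.symm, fun _ => h.2.2.1.symm⟩
  · rw [lab_ev _ _ (by omega) (by omega) hd, lab_od _ _ (by omega) (by omega) hd'] at h
    simp only [Sum.inr.injEq, Prod.mk.injEq, Fin.mk.injEq] at h
    have e := o2 h.2.1
    subst e
    rw [len_opp] at *
    exact Or.inr ⟨rfl, by omega, fun _ => h.1.symm, fun _ => h.2.2.1.symm⟩
  · rw [lab_od _ _ (by omega) (by omega) hd, lab_ev _ _ (by omega) (by omega) hd'] at h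
    simp only [Sum.inr.injEq, Prod.mk.injEq, Fin.mk.injEq] at h
    exact Or.inr ⟨h.2.1.symm, by omega, fun _ => h.2.2.1.symm, fun _ => h.1.symm⟩
  · rw [lab_od _ _ (by omega) (by omega) hd, lab_od _ _ (by omega) (by omega) hd'] at h
    simp only [Sum.inr.injEq, Prod.mk.injEq, Fin.mk.injEq] at h
    have e := oo h.2.1
    subst e
    exact Or.inl ⟨rfl, by omega, fun _ => h.2.2.1.symm, fun _ => h.1.symm⟩

/-- labels of different positions in the same direction differ -/
lemma lab_ne (hL : 16 ≤ L) {a b a' b' : Col} {d : Fin 8} {s s' : ℕ} (h0 : 0 < s)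
    (h1 : s < len L d) (h2 : s' ≤ len L d) (hne : s' ≠ s) : lab L a d b s ≠ lab L a' d b' s' := by
  intro h
  rcases lab_cls hL h0 h1 h2 h with c | c
  · exact hne c.2.1
  · exact opp_ne d c.1.symm

lemma lab_ne2 (hL : 16 ≤ L) {a b a' b' : Col} {d : Fin 8} {s : ℕ} (h2 : s + 2 ≤ len L d) :
    lab L a d b s ≠ lab L a' d b' (s + 2) := by
  have hb := len_bd L d
  by_cases h0 : s = 0
  · subst h0
    exact (lab_ne hL (by omega) (by omega) (by omega) (by omega)).symm
  · exact lab_ne hL (by omega) (by omega) h2 (by omega)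

lemma lab_congr {a b a' b' : Col} {d : Fin 8} {s : ℕ} (hL : 16 ≤ L) (hs : s ≤ len L d)
    (ha : s + 1 < len L d → a' = a) (hb : 1 < s → b' = b) : lab L a' d b' s = lab L a d b s := by
  have hbd := len_bd L d
  by_cases c1 : s + 1 < len L d
  · obtain rfl := ha c1
    by_cases c2 : 1 < s
    · rw [hb c2]
    · by_cases c3 : s = 0
      · subst c3; rw [lab_zero, lab_zero]
      · obtain rfl : s = 1 := by omega
        rw [lab_one hL, lab_one hL]
  · obtain rfl := hb (by omega)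
    by_cases c3 : s = len L d
    · subst c3; rw [lab_len hL, lab_len hL]
    · rw [lab_pen hL _ _ _ (by omega), lab_pen hL _ _ _ (by omega)]

variable {F : Frame N Col}

lemma sq_symm {n : N} {d1 d2 : Fin 8} (h : F.Sq n d1 d2) : F.Sq n d2 d1 := by
  obtain ⟨h0, m1, m2, z, a, b, c, d⟩ := h
  exact ⟨⟨fun x y => h0.1 y x, fun x => by_contra fun y => x (h0.2 y)⟩, m2, m1, z, b, a, d, c⟩

lemma rel_opp {d : Fin 8} {a b : Col} (h : F.rel d a b) : F.rel (opp d) b a := by
  obtain ⟨n, m, h1, h2, h3⟩ := h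
  exact ⟨m, n, h2, h1, F.nb_opp _ _ _ h3⟩

section sub

variable (S : Sub F L U)

lemma adj_pt {n m : N} {d : Fin 8} {s : ℕ} (h : F.nb n d = some m) (hs : s < len L d) :
    S.G.Adj (S.pt n d s) (S.pt n d (s + 1)) :=
  (S.adj_iff _ _).2 ⟨n, d, m, s, h, hs, rfl, rfl⟩

lemma nbr_mid {n m : N} {d : Fin 8} {s : ℕ} (h : F.nb n d = some m) (h0 : 0 < s)
    (hs : s < len L d) {y : U} (hy : S.G.Adj (S.pt n d s) y) :
    y = S.pt n d (s - 1) ∨ y = S.pt n d (s + 1) := by
  obtain ⟨n', d', m', s', a, b, c, rfl⟩ := (S.adj_iff _ _).1 hy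
  rcases S.inj n d m s n' d' m' s' h a h0 hs b.le c with ⟨rfl, rfl, rfl⟩ | ⟨rfl, rfl, rfl⟩
  · exact Or.inr rfl
  · left
    rw [S.pt_rev n d n' (s - 1) h (by omega)]
    congr 1
    omega

lemma fc_node (hF : F.Good) (n : N) (d : Fin 8) : S.fc (S.pt n d 0) = Sum.inl (F.col n) := by
  obtain ⟨d', hd⟩ := hF.ex n
  obtain ⟨m, hm⟩ := Option.isSome_iff_exists.1 hd
  rw [S.pt_zero n d d', S.fc_pt n d' m 0 hm (Nat.zero_le _), lab_zero]

lemma nbr_node (hF : F.Good) (hL : 16 ≤ L) {n : N} {d : Fin 8} {y : U}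
    (hy : S.G.Adj (S.pt n d 0) y) : ∃ d' m, F.nb n d' = some m ∧ y = S.pt n d' 1 := by
  obtain ⟨n', d', m', s', a, b, c, rfl⟩ := (S.adj_iff _ _).1 hy
  by_cases h0 : s' = 0
  · subst h0
    obtain rfl := S.inj0 _ _ _ _ c
    exact ⟨d', m', a, rfl⟩
  · have e := fc_node S hF n d
    rw [c, S.fc_pt n' d' m' s' a b.le] at e
    exact absurd ⟨_, e⟩ (lab_not_mdl hL _ _ _ (by omega) b)

lemma norm_mid (hL : 16 ≤ L) {w : U} {a b : Col} {d : Fin 8} {s : ℕ} (h0 : 0 < s)
    (hs : s < len L d) (h : S.fc w = lab L a d b s) :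
    ∃ n m, F.nb n d = some m ∧ w = S.pt n d s ∧ (s + 1 < len L d → F.col n = a) ∧
      (1 < s → F.col m = b) := by
  obtain ⟨n', d', m', s', a', b', rfl⟩ := S.surj w
  rw [S.fc_pt n' d' m' s' a' b'.le] at h
  rcases lab_cls hL h0 hs b'.le h.symm with ⟨rfl, rfl, c, e⟩ | ⟨rfl, c0, c, e⟩
  · exact ⟨n', m', a', rfl, c, e⟩
  · have hb := F.nb_opp _ _ _ a'
    rw [opp_opp] at hb
    refine ⟨m', n', hb, ?_, c, e⟩
    rw [S.pt_rev m' d n' s hb hs.le]
    congr 1
    omega

lemma norm_node (hL : 16 ≤ L) {w : U} {a : Col} (h : S.fc w = Sum.inl a) :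
    ∃ n, F.col n = a ∧ ∀ d, w = S.pt n d 0 := by
  obtain ⟨n', d', m', s', a', b', rfl⟩ := S.surj w
  rw [S.fc_pt n' d' m' s' a' b'.le] at h
  by_cases h0 : s' = 0
  · subst h0
    rw [lab_zero] at h
    exact ⟨n', Sum.inl.inj h, fun d => S.pt_zero _ _ _⟩
  · exact absurd ⟨_, h⟩ (lab_not_mdl hL _ _ _ (by omega) b')

/-- points within distance two of a node -/
lemma near2_node (hF : F.Good) (hL : 16 ≤ L) {n : N} {d : Fin 8} {y : U}
    (hy : Near S.G.Adj 2 (S.pt n d 0) y) :
    ∃ d' m s, F.nb n d' = some m ∧ s ≤ 2 ∧ y = S.pt n d' s := by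
  obtain ⟨d0, hd⟩ := hF.ex n
  obtain ⟨m0, hm⟩ := Option.isSome_iff_exists.1 hd
  have one : ∀ y, Near S.G.Adj 1 (S.pt n d 0) y →
      ∃ d' m s, F.nb n d' = some m ∧ s ≤ 1 ∧ y = S.pt n d' s := by
    intro y hy
    rcases near_one.1 hy with e | e
    · exact ⟨d0, m0, 0, hm, by omega, by rw [← e, S.pt_zero n d d0]⟩
    · obtain ⟨d', m, a, b⟩ := nbr_node S hF hL e
      exact ⟨d', m, 1, a, le_rfl, b⟩
  rcases hy with hy | ⟨z, hz, hy⟩
  · obtain ⟨d', m, s, a, b, c⟩ := one y hy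
    exact ⟨d', m, s, a, by omega, c⟩
  · obtain ⟨d', m, s, a, b, rfl⟩ := one z hz
    have hb := len_bd L d'
    by_cases h0 : s = 0
    · subst h0
      obtain ⟨d'', m', a', b'⟩ := nbr_node S hF hL hy
      exact ⟨d'', m', 1, a', by omega, b'⟩
    · rcases nbr_mid S a (by omega) (by omega) hy with e | e
      · exact ⟨d', m, _, a, by omega, e⟩
      · exact ⟨d', m, _, a, by omega, e⟩

end sub

end Pool.Agent.H691Z.Td
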