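import Pool.Agent.H691Z.TdLab

/-! Propagation of freeness. -/

set_option autoImplicit false

namespace Pool.Agent.H691Z.Td

open Pool.Agent.H431Z.LD Pool.Agent.H655Z.TD

variable {N Col U W : Type} {F : Frame N Col} {L : ℕ}

/-- pendant copy of the model below the edge `x a` -/
def Pend (S : Sub F L U) (R : SimpleGraph W) (g : W → Lab0 Col L) (free : W → Prop) (x a : W)
    (w p : U) : Prop :=
  ∀ u' n, NBW S.G u' n → 1 ≤ n → n ≤ 2 * L - 3 → u' 0 = w → u' 1 = p →
    ∃ u : ℕ → W, u 0 = x ∧ u 1 = a ∧ (∀ i < n, R.Adj (u i) (u (i + 1))) ∧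
      (∀ i ≤ n, g (u i) = S.fc (u' i)) ∧
      ∀ i, 1 ≤ i → i < n → ∃ D : W → Prop, (∀ j, i < j → j ≤ n → D (u j)) ∧
        (∀ v, D v → ¬ free v) ∧
        ∀ v v', D v → R.Adj v v' → D v' ∨ (v = u (i + 1) ∧ v' = u i)

/-- all hypotheses -/
structure Ctx (S : Sub F L U) (R : SimpleGraph W) (g : W → Lab0 Col L) (free : W → Prop) : Prop where
  hF : F.Good
  hL : 16 ≤ L
  arc : ∀ {n0 n1 : N} {d0 d1 : Fin 8} {s0 : ℕ}, F.nb n0 d0 = some n1 → F.Sq n1 (opp d0) d1 →
    s0 < len L d0 →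
    ∃ u, NBW S.G u (2 * L - 2) ∧ (∀ i, s0 + i ≤ len L d0 → u i = S.pt n0 d0 (s0 + i)) ∧
      (∀ i, i ≤ 2 * L - 2 → len L d0 ≤ s0 + i → s0 + i ≤ 2 * L - 1 →
        u i = S.pt n1 d1 (s0 + i - len L d0)) ∧
      ∃ z, Ex S.G L (u 0) z ∧ Ex S.G L (u (2 * L - 2)) z
  h1 : ∀ v a b, R.Adj v a → R.Adj v b → g a = g b → a = b
  h2 : ∀ x, free x → ∃ w, S.fc w = g x ∧ (∀ a, R.Adj x a → ∃ p, S.G.Adj w p ∧ S.fc p = g a) ∧
    ∀ p, S.G.Adj w p → ∃ a, R.Adj x a ∧ g a = S.fc p
  h3 : ∀ (u : ℕ → W) (u' : ℕ → U), free (u 0) → (∀ i < 2 * L - 2, R.Adj (u i) (u (i + 1))) →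
    NBW S.G u' (2 * L - 2) → (∀ i, 1 ≤ i → i ≤ 2 * L - 2 → g (u i) = S.fc (u' i)) →
    (g (u 0) = S.fc (u' 0) ∨ mdl0 (S.fc (u' 2))) → g (u 0) ≠ g (u 2) →
    Zc S.G S.fc mdl0 L (u' 0) (u' (2 * L - 2)) →
    ¬ Near R.Adj (2 * L - 3) (u 0) (u (2 * L - 2)) ∧ Zc R g mdl0 L (u 0) (u (2 * L - 2))
  h4 : ∀ x a, free x → R.Adj x a → ¬ free a → ∃ w p, S.G.Adj w p ∧ S.fc w = g x ∧ S.fc p = g a ∧
    Pend S R g free x a w p
  h5 : ∀ v a b c, ¬ mdl0 (g v) → R.Adj v a → R.Adj v b → R.Adj v c → a = b ∨ a = c ∨ b = c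
  h6 : ∀ x, free x → mdl0 (g x) → ∃ w, S.fc w = g x ∧
    ∀ a, Near R.Adj 2 x a → ∃ p, Near S.G.Adj 2 w p ∧ S.fc p = g a

namespace Ctx

variable {S : Sub F L U} {R : SimpleGraph W} {g : W → Lab0 Col L} {free : W → Prop}
  (C : Ctx S R g free)

include C

lemma loc {x : W} (hx : free x) {a b : Col} {d : Fin 8} {s : ℕ} (h0 : 0 < s) (hs : s < len L d)
    (h : g x = lab L a d b s) :
    ∃ a' b' xm xp, F.rel d a' b' ∧ (s + 1 < len L d → a' = a) ∧ (1 < s → b' = b) ∧ R.Adj x xm ∧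
      R.Adj x xp ∧ g xm = lab L a' d b' (s - 1) ∧ g xp = lab L a' d b' (s + 1) ∧
      ∀ y, R.Adj x y → y = xm ∨ y = xp := by
  obtain ⟨w, e, c1, c2⟩ := C.h2 x hx
  obtain ⟨n, m, hn, rfl, ca, cb⟩ := norm_mid S C.hL h0 hs (e.trans h)
  have am : S.G.Adj (S.pt n d s) (S.pt n d (s - 1)) := by
    have := (adj_pt S hn (show s - 1 < len L d by omega)).symm
    rwa [show s - 1 + 1 = s by omega] at this
  obtain ⟨xm, m1, m2⟩ := c2 _ am
  obtain ⟨xp, p1, p2⟩ := c2 _ (adj_pt S hn hs)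
  refine ⟨F.col n, F.col m, xm, xp, ⟨n, m, rfl, rfl, hn⟩, ca, cb, m1, p1, ?_, ?_, fun y hy => ?_⟩
  · rw [m2, S.fc_pt n d m _ hn (by omega)]
  · rw [p2, S.fc_pt n d m _ hn (by omega)]
  · obtain ⟨p, q1, q2⟩ := c1 y hy
    rcases nbr_mid S hn h0 hs q1 with rfl | rfl
    · exact Or.inl (C.h1 x _ _ hy m1 (q2.symm.trans m2.symm))
    · exact Or.inr (C.h1 x _ _ hy p1 (q2.symm.trans p2.symm))

lemma locn {x : W} (hx : free x) {a : Col} (h : g x = Sum.inl a) :
    ∃ n, F.col n = a ∧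
      (∀ d, (F.nb n d).isSome → ∃ y, R.Adj x y ∧ g y = Sum.inr (Sum.inl (a, d))) ∧
      ∀ y, R.Adj x y → ∃ d, (F.nb n d).isSome ∧ g y = Sum.inr (Sum.inl (a, d)) := by
  obtain ⟨w, e, c1, c2⟩ := C.h2 x hx
  obtain ⟨n, rfl, hw⟩ := norm_node S C.hL (e.trans h)
  have hL := C.hL
  refine ⟨n, rfl, fun d hd => ?_, fun y hy => ?_⟩
  · obtain ⟨m, hm⟩ := Option.isSome_iff_exists.1 hd
    have hb := len_bd L d
    obtain ⟨y, y1, y2⟩ := c2 _ (hw d ▸ adj_pt S hm (show 0 < len L d by omega))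
    exact ⟨y, y1, by rw [y2, S.fc_pt n d m _ hm (by omega), lab_one hL]⟩
  · obtain ⟨p, q1, q2⟩ := c1 y hy
    rw [hw 0] at q1
    obtain ⟨d, m, hm, rfl⟩ := nbr_node S C.hF hL q1
    have hb := len_bd L d
    exact ⟨d, by simp [hm], by rw [← q2, S.fc_pt n d m _ hm (by omega), lab_one hL]⟩

lemma contra {k : ℕ} (hk1 : 1 ≤ k) (hk2 : k ≤ 2) (v : ℕ → W) (hv0 : free (v 0))
    (hv : ∀ i < k, R.Adj (v i) (v (i + 1))) {u' : ℕ → U} (hu' : NBW S.G u' (2 * L - 2))
    (hz : ∃ z, Ex S.G L (u' 0) z ∧ Ex S.G L (u' (2 * L - 2)) z)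
    (hm : ¬ mdl0 (S.fc (u' (L - 1)))) (hl : ∀ i, 1 ≤ i → i < k → g (v i) = S.fc (u' i))
    (h0 : g (v 0) = S.fc (u' 0) ∨ mdl0 (S.fc (u' 2))) (hne : g (v 0) ≠ S.fc (u' 2)) {a : W}
    (hP : Pend S R g free (v k) a (u' k) (u' (k + 1))) : False := by
  have hL := C.hL
  obtain ⟨t, t0, -, t2, t3, t4⟩ := hP (fun i => u' (k + i)) (2 * L - 2 - k) (hu'.shift k)
    (by omega) (by omega) rfl rfl
  let u : ℕ → W := fun i => if i < k then v i else t (i - k)
  have ul : ∀ i ≤ k, u i = v i := by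
    intro i hi
    by_cases c : i < k
    · simp [u, c]
    · obtain rfl : i = k := by omega
      simp [u, t0]
  have ur : ∀ i, k ≤ i → u i = t (i - k) := fun i hi => by simp [u, not_lt.2 hi]
  have hadj : ∀ i < 2 * L - 2, R.Adj (u i) (u (i + 1)) := by
    intro i hi
    by_cases c : i < k
    · rw [ul i c.le, ul (i + 1) c]; exact hv i c
    · rw [ur i (by omega), ur (i + 1) (by omega), show i + 1 - k = i - k + 1 by omega]
      exact t2 _ (by omega)
  have hlab : ∀ i, 1 ≤ i → i ≤ 2 * L - 2 → g (u i) = S.fc (u' i) := by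
    intro i h1 h2
    by_cases c : i < k
    · rw [ul i c.le]; exact hl i h1 c
    · rw [ur i (by omega), t3 _ (by omega)]
      congr 2
      omega
  have u0 : u 0 = v 0 := ul 0 (by omega)
  obtain ⟨hn, hZ⟩ := C.h3 u u' (u0 ▸ hv0) hadj hu' hlab (u0 ▸ h0)
    (by rw [u0, hlab 2 (by omega) (by omega)]; exact hne) (Or.inl hz)
  obtain ⟨D, d1, d2, d3⟩ := t4 (L - 1 - k) (by omega) (by omega)
  have hm' : ¬ mdl0 (g (u (L - 1))) := by rw [hlab _ (by omega) (by omega)]; exact hm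
  refine noz (g := g) (mdl := mdl0) (by omega) hadj hn hm' ?_ D ?_ ?_ ?_ hZ
  · intro b hb
    have a1 : R.Adj (u (L - 1)) (u (L - 2)) := by
      have := (hadj (L - 2) (by omega)).symm
      rwa [show L - 2 + 1 = L - 1 by omega] at this
    have a2 : R.Adj (u (L - 1)) (u L) := by
      have := hadj (L - 1) (by omega)
      rwa [show L - 1 + 1 = L by omega] at this
    rcases C.h5 _ _ _ _ hm' hb a1 a2 with e | e | e
    · exact Or.inl e
    · exact Or.inr e
    · exfalso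
      have b1 := walk_near hadj (i := 0) (j := L - 2) (by omega) (by omega)
      have b2 := walk_near hadj (i := L) (j := 2 * L - 2) (by omega) le_rfl
      rw [e] at b1
      exact hn ((b1.trans b2).mono (by omega))
  · rw [ur _ (by omega)]
    exact d1 _ (by omega) (by omega)
  · rw [u0]
    exact fun c => d2 _ c hv0
  · intro x x' hx hx'
    rcases d3 x x' hx hx' with c | ⟨c, c'⟩
    · exact Or.inl c
    · refine Or.inr ⟨?_, ?_⟩
      · rw [ur _ (by omega), c]; congr 1; omega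
      · rw [ur _ (by omega), c']

omit C in
lemma sq_len {n : N} {d1 d2 : Fin 8} (hL : 16 ≤ L) (h : F.Sq n d1 d2) :
    len L d1 + len L d2 = 2 * L - 1 := by
  by_cases c : isV d1
  · rw [len_V c, len_H (h.1.1 c)]; omega
  · rw [len_H c, len_V (by_contra fun y => c (h.1.2 y))]; omega

omit C in
lemma sq_some {n : N} {d1 d2 : Fin 8} (h : F.Sq n d1 d2) :
    (∃ m, F.nb n d1 = some m) ∧ ∃ m, F.nb n d2 = some m := by
  obtain ⟨-, m1, m2, -, a, b, -⟩ := h
  exact ⟨⟨_, a⟩, _, b⟩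

omit C in
lemma sq_ne {n : N} {d1 d2 : Fin 8} (h : F.Sq n d1 d2) : d1 ≠ d2 := by
  rintro rfl
  exact iff_not_self h.1

/-- propagation at nodes -/
lemma node {x y : W} (hx : free x) {a : Col} (h : g x = Sum.inl a) (hy : free y)
    (hxy : R.Adj x y) : ∀ z, R.Adj x z → free z := by
  have hL := C.hL
  obtain ⟨n, hn, c1, c2⟩ := C.locn hx h
  have key := C.hF.link n (fun d => ∀ z, R.Adj x z → g z = Sum.inr (Sum.inl (a, d)) → free z) ?_ ?_
  · intro z hz
    obtain ⟨d, d1, d2⟩ := c2 z hz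
    exact key d d1 z hz d2
  · obtain ⟨d, d1, d2⟩ := c2 y hxy
    exact ⟨d, d1, fun z hz e => C.h1 x _ _ hxy hz (d2.trans e.symm) ▸ hy⟩
  · intro d1 d2 hsq hP z hz e
    by_contra hf
    obtain ⟨w, p, wp, ew, ep, hP'⟩ := C.h4 x z hx hz hf
    obtain ⟨n', hn', hw⟩ := norm_node S hL (ew.trans h)
    rw [hw 0] at wp
    obtain ⟨d', m', hm', rfl⟩ := nbr_node S C.hF hL wp
    have hb' := len_bd L d'
    rw [S.fc_pt n' d' m' _ hm' (by omega), lab_one hL, e] at ep
    simp only [Sum.inr.injEq, Sum.inl.injEq, Prod.mk.injEq] at ep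
    obtain rfl := ep.2
    have hsq' := C.hF.sq n n' d1 d' (hn.trans hn'.symm) hsq
    obtain ⟨m1, hm1⟩ := (sq_some hsq').1
    have hb := len_bd L d1
    have ho : len L (opp d1) = len L d1 := len_opp d1
    have hl := sq_len hL hsq'
    obtain ⟨u', a1, a2, a3, a4⟩ := C.arc (s0 := len L d1 - 1) (F.nb_opp _ _ _ hm1)
      (by rw [opp_opp]; exact hsq') (by omega)
    obtain ⟨y1, b1, b2⟩ := c1 d1 (by obtain ⟨m, hm⟩ := (sq_some hsq).1; simp [hm])
    have e0 : u' 0 = S.pt n' d1 1 := by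
      rw [a2 0 (by omega), S.pt_rev n' d1 m1 1 hm1 (by omega)]; rfl
    have e1 : ∀ i, 1 ≤ i → i ≤ L → u' i = S.pt n' d' (i - 1) := fun i i1 i2 => by
      rw [a3 i (by omega) (by omega) (by omega)]; congr 1; omega
    refine C.contra (k := 1) le_rfl (by omega) (fun i => if i = 0 then y1 else x)
      (by simpa using hP y1 b1 b2) (fun i hi => ?_) a1 a4 ?_ (fun i i1 i2 => by omega) ?_ ?_
      (a := z) ?_
    · obtain rfl : i = 0 := by omega
      simpa using b1.symm
    · rw [e1 _ (by omega) (by omega), S.fc_pt n' d' m' _ hm' (by omega)]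
      exact lab_not_mdl hL _ _ _ (by omega) (by omega)
    · left
      rw [e0, S.fc_pt n' d1 m1 _ hm1 (by omega), lab_one hL, hn']
      simpa using b2
    · rw [e1 2 (by omega) (by omega), S.fc_pt n' d' m' _ hm' (by omega), lab_one hL]
      simp only [if_true, b2]
      simp [sq_ne hsq]
    · rw [e1 1 le_rfl (by omega), e1 (1 + 1) (by omega) (by omega), ← hw d']
      simpa using hP'

/-- the arc along an edge -/
lemma edge_arc {n m : N} {d : Fin 8} {s0 : ℕ} (hn : F.nb n d = some m) (hs : s0 < len L d)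
    (hb : s0 + L - 1 ≠ len L d) :
    ∃ u, NBW S.G u (2 * L - 2) ∧ (∀ i, s0 + i ≤ len L d → u i = S.pt n d (s0 + i)) ∧
      (∃ z, Ex S.G L (u 0) z ∧ Ex S.G L (u (2 * L - 2)) z) ∧ ¬ mdl0 (S.fc (u (L - 1))) := by
  have hL := C.hL
  obtain ⟨d1, hsq⟩ := C.hF.part m (opp d) (by simp [F.nb_opp _ _ _ hn])
  obtain ⟨u, a1, a2, a3, a4⟩ := C.arc hn hsq hs
  have hl := sq_len hL hsq
  rw [len_opp] at hl
  have hbd := len_bd L d
  refine ⟨u, a1, a2, a4, ?_⟩
  by_cases c : s0 + (L - 1) ≤ len L d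
  · rw [a2 _ c, S.fc_pt n d m _ hn c]
    exact lab_not_mdl hL _ _ _ (by omega) (by omega)
  · obtain ⟨m2, hm2⟩ := (sq_some hsq).2
    rw [a3 _ (by omega) (by omega) (by omega), S.fc_pt m d1 m2 _ hm2 (by omega)]
    exact lab_not_mdl hL _ _ _ (by omega) (by omega)

/-- the two neighbours of an inner point -/
lemma other {x y z : W} (hx : free x) (hy : free y) (hz : ¬ free z) (hxy : R.Adj x y)
    (hxz : R.Adj x z) {a b : Col} {d : Fin 8} {s : ℕ} (h0 : 0 < s) (hs : s < len L d)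
    (ex : g x = lab L a d b s) (ez : g z = lab L a d b (s + 1)) :
    ∃ a', (s + 1 < len L d → a' = a) ∧ g y = lab L a' d b (s - 1) := by
  have hL := C.hL
  have hb := len_bd L d
  obtain ⟨a', b', xm, xp, -, ca, cb, -, -, em, -, all⟩ := C.loc hx h0 hs ex
  have hyz : y ≠ z := fun e => hz (e ▸ hy)
  have hz' : z = xp := by
    refine (all z hxz).resolve_left ?_
    rintro rfl
    have := lab_ne2 hL (a := a') (b := b') (a' := a) (b' := b) (d := d) (s := s - 1) (by omega)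
    rw [show s - 1 + 2 = s + 1 by omega] at this
    exact this (em.symm.trans ez)
  have hy' : y = xm := (all y hxy).resolve_right (fun e => hyz (e.trans hz'.symm))
  refine ⟨a', ca, ?_⟩
  rw [hy', em]
  exact lab_congr hL (by omega) (fun _ => rfl) (fun c => cb (by omega))

/-- propagation at inner points, main case -/
lemma inner {x y z : W} (hx : free x) (hy : free y) (hz : ¬ free z) (hxy : R.Adj x y)
    (hxz : R.Adj x z) {n m : N} {d : Fin 8} {s : ℕ} (hn : F.nb n d = some m) (h0 : 0 < s)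
    (hs : s < len L d) (ex : S.fc (S.pt n d s) = g x) (ez : S.fc (S.pt n d (s + 1)) = g z)
    (hP : Pend S R g free x z (S.pt n d s) (S.pt n d (s + 1))) (hb : s + L - 2 ≠ len L d) :
    False := by
  have hL := C.hL
  have hbd := len_bd L d
  obtain ⟨u', a1, a2, a4, a5⟩ := C.edge_arc (s0 := s - 1) hn (by omega) (by omega)
  rw [S.fc_pt n d m _ hn (by omega)] at ex ez
  obtain ⟨a', ca, ey⟩ := C.other hx hy hz hxy hxz h0 hs ex.symm ez.symm
  have e0 : u' 0 = S.pt n d (s - 1) := a2 0 (by omega)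
  have e1 : u' 1 = S.pt n d s := by rw [a2 1 (by omega)]; congr 1; omega
  have e2 : u' 2 = S.pt n d (s + 1) := by rw [a2 2 (by omega)]; congr 1; omega
  refine C.contra (k := 1) le_rfl (by omega) (fun i => if i = 0 then y else x)
    (by simpa using hy) (fun i hi => ?_) a1 a4 a5 (fun i i1 i2 => by omega) ?_ ?_ (a := z) ?_
  · obtain rfl : i = 0 := by omega
    simpa using hxy.symm
  · by_cases c : s + 1 < len L d
    · left
      rw [e0, S.fc_pt n d m _ hn (by omega), ← ca c]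
      simpa using ey
    · right
      rw [e2, S.fc_pt n d m _ hn (by omega), show s + 1 = len L d by omega, lab_len hL]
      exact ⟨_, rfl⟩
  · rw [e2, S.fc_pt n d m _ hn (by omega), ez]
    simp only [if_true]
    exact fun e => hz (C.h1 x _ _ hxy hxz e ▸ hy)
  · rw [e1, show 1 + 1 = 2 from rfl, e2]
    simpa using hP

/-- propagation -/
lemma prop {x y : W} (hx : free x) (hy : free y) (hxy : R.Adj x y) :
    ∀ z, R.Adj x z → free z := by
  have hL := C.hL
  intro z hxz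
  by_contra hz
  obtain ⟨w, p, wp, ex, ez, hP⟩ := C.h4 x z hx hxz hz
  obtain ⟨n, d, m, s, hn, hs, rfl, rfl⟩ := (S.adj_iff _ _).1 wp
  have hbd := len_bd L d
  by_cases h0 : s = 0
  · subst h0
    rw [fc_node S C.hF] at ex
    exact hz (C.node hx ex.symm hy hxy z hxz)
  by_cases hb : s + L - 2 ≠ len L d
  · exact C.inner hx hy hz hxy hxz hn (by omega) hs ex ez hP hb
  push Not at hb
  have ex' := ex
  have ez' := ez
  rw [S.fc_pt n d m _ hn (by omega)] at ex' ez'
  obtain ⟨a', ca, ey⟩ := C.other hx hy hz hxy hxz (by omega) hs ex'.symm ez'.symm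
  obtain rfl := ca (by omega)
  by_cases h1 : s = 1
  · subst h1
    rw [Nat.sub_self, lab_zero] at ey
    have hall := C.node hy ey hx hxy.symm
    obtain ⟨d2, hsq⟩ := C.hF.part n d (by simp [hn])
    obtain ⟨m2, hm2⟩ := (sq_some hsq).2
    obtain ⟨n', hn', c1, -⟩ := C.locn hy ey
    obtain ⟨y2, b1, b2⟩ := c1 d2 (C.hF.pres n n' d2 hn'.symm (by simp [hm2]))
    have ho : len L (opp d2) = len L d2 := len_opp d2
    have hl := sq_len hL hsq
    have hb2 := len_bd L d2
    obtain ⟨u', a1, a2, a3, a4⟩ := C.arc (s0 := len L d2 - 1) (F.nb_opp _ _ _ hm2)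
      (by rw [opp_opp]; exact sq_symm hsq) (by omega)
    have e0 : u' 0 = S.pt n d2 1 := by
      rw [a2 0 (by omega), S.pt_rev n d2 m2 1 hm2 (by omega)]; rfl
    have e1 : ∀ i, 1 ≤ i → i ≤ L → u' i = S.pt n d (i - 1) := fun i i1 i2 => by
      rw [a3 i (by omega) (by omega) (by omega)]; congr 1; omega
    refine C.contra (k := 2) (by omega) le_rfl
      (fun i => if i = 0 then y2 else if i = 1 then y else x)
      (by simpa using hall y2 b1) (fun i hi => ?_) a1 a4 ?_ (fun i i1 i2 => ?_) ?_ ?_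
      (a := z) ?_
    · interval_cases i
      · simpa using b1.symm
      · simpa using hxy.symm
    · rw [e1 _ (by omega) (by omega), S.fc_pt n d m _ hn (by omega)]
      exact lab_not_mdl hL _ _ _ (by omega) (by omega)
    · obtain rfl : i = 1 := by omega
      rw [e1 1 le_rfl (by omega), fc_node S C.hF]
      simpa using ey
    · left
      rw [e0, S.fc_pt n d2 m2 _ hm2 (by omega), lab_one hL]
      simpa using b2
    · rw [e1 2 (by omega) (by omega), S.fc_pt n d m _ hn (by omega), lab_one hL]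
      simp only [if_true, b2]
      simp [(sq_ne hsq).symm]
    · rw [e1 2 (by omega) (by omega), e1 (2 + 1) (by omega) (by omega)]
      simpa using hP
  · obtain rfl : s = 2 := by omega
    obtain ⟨a', b', ym, yp, -, ca, -, ya, -, em, -, -⟩ := C.loc hy (by omega) (by omega) ey
    obtain rfl := ca (by omega)
    rw [show 2 - 1 - 1 = 0 from rfl, lab_zero] at em
    have hym : free ym := by
      by_contra hf
      obtain ⟨w', p', wp', ex2, ez2, hP2⟩ := C.h4 y ym hy ya hf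
      obtain ⟨n', d', m', s', hn', hs', rfl, rfl⟩ := (S.adj_iff _ _).1 wp'
      have hbd' := len_bd L d'
      have hs2 : s' + 1 = len L d' := by
        by_contra c
        rw [S.fc_pt n' d' m' _ hn' (by omega), em] at ez2
        exact lab_not_mdl hL _ _ _ (by omega) (by omega) ⟨_, ez2⟩
      exact C.inner hy hx hf hxy.symm ya hn' (by omega) hs' ex2 ez2 hP2 (by omega)
    obtain ⟨u', a1, a2, a4, a5⟩ := C.edge_arc (s0 := 0) hn (by omega) (by omega)
    have e1 : ∀ i ≤ 3, u' i = S.pt n d i := fun i hi => by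
      rw [a2 i (by omega), Nat.zero_add]
    refine C.contra (k := 2) (by omega) le_rfl
      (fun i => if i = 0 then ym else if i = 1 then y else x)
      (by simpa using hym) (fun i hi => ?_) a1 a4 a5 (fun i i1 i2 => ?_) ?_ ?_
      (a := z) ?_
    · interval_cases i
      · simpa using ya.symm
      · simpa using hxy.symm
    · obtain rfl : i = 1 := by omega
      rw [e1 1 (by omega), S.fc_pt n d m _ hn (by omega)]
      simpa using ey
    · left
      rw [e1 0 (by omega), fc_node S C.hF]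
      simpa using em
    · rw [e1 2 (by omega), S.fc_pt n d m _ hn (by omega)]
      simp only [if_true, em]
      exact fun e => lab_not_mdl hL _ _ _ (by omega) (by omega) ⟨_, e.symm⟩
    · rw [e1 2 (by omega), e1 (2 + 1) (by omega)]
      simpa using hP

end Ctx

end Pool.Agent.H691Z.Td
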